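import Mathlib

set_option autoImplicit false

namespace Pool.Agent.H267R3

open Finset

variable (p : ℕ)

/-- The polarity relation on the affine plane over `ZMod p`. -/
def padj (x y : ZMod p × ZMod p) : Prop := x.2 + y.2 = x.1 * y.1

/-- Equal or related. -/
def near (x y : ZMod p × ZMod p) : Prop := x = y ∨ padj p x y

theorem padj_symm {x y : ZMod p × ZMod p} (h : padj p x y) : padj p y x := by
  unfold padj at *
  rw [add_comm, h, mul_comm]

theorem near_symm {x y : ZMod p × ZMod p} (h : near p x y) : near p y x := by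
  rcases h with h | h
  · exact Or.inl h.symm
  · exact Or.inr (padj_symm p h)

theorem common [Fact p.Prime] {x y z w : ZMod p × ZMod p} (hxy : x ≠ y)
    (h1 : padj p x z) (h2 : padj p y z) (h3 : padj p x w) (h4 : padj p y w) : z = w := by
  obtain ⟨a, b⟩ := x
  obtain ⟨a', b'⟩ := y
  obtain ⟨c, d⟩ := z
  obtain ⟨c', d'⟩ := w
  simp only [padj] at h1 h2 h3 h4
  have h5 : (a - a') * (c - c') = 0 := by linear_combination -h1 + h2 + h3 - h4
  rcases mul_eq_zero.1 h5 with h | h
  · exfalso
    apply hxy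
    have ha : a = a' := sub_eq_zero.1 h
    subst ha
    have : b = b' := by linear_combination h1 - h2
    rw [this]
  · have hc : c = c' := sub_eq_zero.1 h
    subst hc
    have : d = d' := by linear_combination h1 - h3
    rw [this]

open Classical in
theorem card_nbr [Fact p.Prime] (x : ZMod p × ZMod p) :
    (univ.filter (fun z => padj p x z)).card = p := by
  have : univ.filter (fun z => padj p x z) =
      univ.image (fun c : ZMod p => (c, x.1 * c - x.2)) := by
    ext z
    rw [mem_filter, mem_image]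
    constructor
    · rintro ⟨-, h⟩
      have h' : x.2 + z.2 = x.1 * z.1 := h
      exact ⟨z.1, mem_univ _, Prod.ext rfl (by simp only; rw [← h']; ring)⟩
    · rintro ⟨c, -, rfl⟩
      refine ⟨mem_univ _, ?_⟩
      change x.2 + (x.1 * c - x.2) = x.1 * c
      ring
  rw [this, card_image_of_injective _ (fun a b h => (Prod.ext_iff.1 h).1), card_univ, ZMod.card]

open Classical in
theorem indep_bound [Fact p.Prime] (S : Finset (ZMod p × ZMod p))
    (hS : ∀ x ∈ S, ∀ y ∈ S, x ≠ y → ¬ padj p x y) (hp : p ≤ S.card) :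
    ((S.card : ℤ) - p) ^ 2 ≤ (p : ℤ) ^ 3 := by
  have hp0 : 0 < p := (Fact.out : p.Prime).pos
  set σ : ℤ := (S.card : ℤ) with hσ
  have hσp : (p : ℤ) ≤ σ := by rw [hσ]; exact_mod_cast hp
  let a : ZMod p × ZMod p → ZMod p × ZMod p → ℤ := fun x z => if padj p x z then 1 else 0
  let d : ZMod p × ZMod p → ℤ := fun z => ∑ x ∈ S, a x z
  have hrow : ∀ x, ∑ z, a x z = p := by
    intro x
    simp only [a]
    rw [← Finset.sum_filter, sum_const, nsmul_eq_mul, mul_one, card_nbr]
  have hsum : ∑ z, d z = σ * p := by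
    simp only [d]
    rw [sum_comm, sum_congr rfl (fun x _ => hrow x), sum_const, nsmul_eq_mul]
  have hpair : ∀ x y, ∑ z, a x z * a y z ≤ if x = y then (p : ℤ) else 1 := by
    intro x y
    split_ifs with h
    · subst h
      rw [← hrow x]
      apply sum_le_sum
      intro z _
      simp only [a]
      split_ifs <;> simp
    · have : ∑ z, a x z * a y z =
          ((univ.filter (fun z => padj p x z ∧ padj p y z)).card : ℤ) := by
        rw [card_filter]
        push_cast
        apply sum_congr rfl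
        intro z _
        simp only [a]
        by_cases h1 : padj p x z <;> by_cases h2 : padj p y z <;> simp [h1, h2]
      rw [this]
      have hle : (univ.filter (fun z => padj p x z ∧ padj p y z)).card ≤ 1 := by
        rw [card_le_one]
        intro z hz w hw
        simp only [mem_filter, mem_univ, true_and] at hz hw
        exact common p h hz.1 hz.2 hw.1 hw.2
      exact_mod_cast hle
  have hsq : ∑ z, d z ^ 2 ≤ σ * p + σ ^ 2 := by
    have e1 : ∑ z, d z ^ 2 = ∑ x ∈ S, ∑ y ∈ S, ∑ z, a x z * a y z := by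
      simp only [d]
      have : ∀ z, (∑ x ∈ S, a x z) ^ 2 = ∑ x ∈ S, ∑ y ∈ S, a x z * a y z := by
        intro z
        rw [sq, sum_mul_sum]
      rw [sum_congr rfl (fun z _ => this z), sum_comm]
      apply sum_congr rfl
      intro x _
      rw [sum_comm]
    rw [e1]
    calc ∑ x ∈ S, ∑ y ∈ S, ∑ z, a x z * a y z
        ≤ ∑ x ∈ S, ∑ y ∈ S, (if x = y then (p : ℤ) else 1) :=
          sum_le_sum (fun x _ => sum_le_sum (fun y _ => hpair x y))
      _ ≤ ∑ x ∈ S, ∑ y ∈ S, ((if x = y then (p : ℤ) else 0) + 1) := by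
          apply sum_le_sum; intro x _; apply sum_le_sum; intro y _
          split_ifs
          · linarith
          · simp
      _ = ∑ x ∈ S, ((p : ℤ) + σ) := by
          apply sum_congr rfl
          intro x hx
          rw [sum_add_distrib, sum_ite_eq S x, if_pos hx, sum_const, nsmul_eq_mul, mul_one]
      _ = σ * p + σ ^ 2 := by
          rw [sum_const, nsmul_eq_mul]; ring
  have hdev : ∑ z, ((p : ℤ) * d z - σ) ^ 2 ≤ (p : ℤ) ^ 3 * σ := by
    have e1 : ∀ z, ((p : ℤ) * d z - σ) ^ 2 = p ^ 2 * d z ^ 2 - 2 * p * σ * d z + σ ^ 2 := by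
      intro z; ring
    rw [sum_congr rfl (fun z _ => e1 z), sum_add_distrib, sum_sub_distrib, ← mul_sum, ← mul_sum,
      hsum, sum_const, card_univ, Fintype.card_prod, ZMod.card, nsmul_eq_mul]
    have : (p : ℤ) ^ 2 * ∑ z, d z ^ 2 ≤ p ^ 2 * (σ * p + σ ^ 2) :=
      mul_le_mul_of_nonneg_left hsq (by positivity)
    push_cast
    nlinarith [this]
  have hS1 : ∀ z ∈ S, d z ≤ 1 := by
    intro z hz
    have : d z = ((S.filter (fun x => padj p x z)).card : ℤ) := by
      simp only [d, a]
      rw [card_filter]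
      push_cast
      rfl
    rw [this]
    have hle : (S.filter (fun x => padj p x z)).card ≤ 1 := by
      rw [card_le_one]
      intro x hx y hy
      simp only [mem_filter] at hx hy
      have h1 : x = z := by
        by_contra hne
        exact hS x hx.1 z hz hne hx.2
      have h2 : y = z := by
        by_contra hne
        exact hS y hy.1 z hz hne hy.2
      rw [h1, h2]
    exact_mod_cast hle
  have hlow : σ * (σ - p) ^ 2 ≤ ∑ z, ((p : ℤ) * d z - σ) ^ 2 := by
    calc σ * (σ - p) ^ 2 = ∑ z ∈ S, (σ - p) ^ 2 := by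
          rw [sum_const, nsmul_eq_mul]
      _ ≤ ∑ z ∈ S, ((p : ℤ) * d z - σ) ^ 2 := by
          apply sum_le_sum
          intro z hz
          have h1 := hS1 z hz
          have h2 : (p : ℤ) * d z ≤ p := by nlinarith
          nlinarith
      _ ≤ ∑ z, ((p : ℤ) * d z - σ) ^ 2 := by
          apply sum_le_univ_sum_of_nonneg
          intro z
          positivity
  have hσ0 : 0 < σ := lt_of_lt_of_le (by exact_mod_cast hp0) hσp
  have : σ * (σ - p) ^ 2 ≤ σ * (p : ℤ) ^ 3 := by linarith [hlow, hdev]
  exact le_of_mul_le_mul_left this hσ0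

/-- No independent set of size `p + √(p³) + 1`. -/
theorem no_indep [Fact p.Prime] (S : Finset (ZMod p × ZMod p))
    (hS : ∀ x ∈ S, ∀ y ∈ S, x ≠ y → ¬ padj p x y) : S.card < p + Nat.sqrt (p ^ 3) + 1 := by
  by_contra hcon
  push Not at hcon
  have hb := indep_bound p S hS (by omega)
  have h1 : ((Nat.sqrt (p ^ 3) : ℤ) + 1) ≤ (S.card : ℤ) - p := by
    have : ((p + Nat.sqrt (p ^ 3) + 1 : ℕ) : ℤ) ≤ (S.card : ℤ) := by exact_mod_cast hcon
    push_cast at this
    linarith
  have h2 : p ^ 3 < (Nat.sqrt (p ^ 3) + 1) ^ 2 := by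
    have := Nat.lt_succ_sqrt (p ^ 3)
    simpa [sq, Nat.succ_eq_add_one] using this
  have h3 : (p : ℤ) ^ 3 < ((Nat.sqrt (p ^ 3) : ℤ) + 1) ^ 2 := by exact_mod_cast h2
  have h4 : ((Nat.sqrt (p ^ 3) : ℤ) + 1) ^ 2 ≤ ((S.card : ℤ) - p) ^ 2 := by
    apply pow_le_pow_left₀ _ h1
    positivity
  linarith

end Pool.Agent.H267R3
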