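import Mathlib
import Pool.Agent.H267R3.Polar

set_option autoImplicit false

namespace Pool.Agent.H267R3

open Finset

open Classical in
/-- Number of ordered pairs of indices mapped to equal or related points. -/
theorem near_count (p : ℕ) [Fact p.Prime] (b t : ℕ) (htb : t ≤ b)
    (φ : Fin b → ZMod p × ZMod p) (hfib : ∀ x, (univ.filter (fun i => φ i = x)).card ≤ t) :
    (∑ i, (univ.filter (fun j => near p (φ i) (φ j))).card) ^ 2 ≤ 6 * b ^ 3 * t := by
  set c : Fin b → ℕ := fun i => (univ.filter (fun j => padj p (φ i) (φ j))).card with hc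
  have h1 : ∑ i, (univ.filter (fun j => near p (φ i) (φ j))).card ≤ b * t + ∑ i, c i := by
    calc ∑ i, (univ.filter (fun j => near p (φ i) (φ j))).card
        ≤ ∑ i, (t + c i) := by
          apply sum_le_sum
          intro i _
          have hsub : univ.filter (fun j => near p (φ i) (φ j)) ⊆
              univ.filter (fun j => φ j = φ i) ∪ univ.filter (fun j => padj p (φ i) (φ j)) := by
            intro j hj
            rw [mem_filter] at hj
            rw [mem_union, mem_filter, mem_filter]
            rcases hj.2 with h | h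
            · exact Or.inl ⟨mem_univ _, h.symm⟩
            · exact Or.inr ⟨mem_univ _, h⟩
          exact (card_le_card hsub).trans ((card_union_le _ _).trans
            (Nat.add_le_add_right (hfib _) _))
      _ = b * t + ∑ i, c i := by
          rw [sum_add_distrib, sum_const, card_univ, Fintype.card_fin, smul_eq_mul]
  have h2 : ∑ i, c i ^ 2 ≤ 2 * b ^ 2 * t := by
    let a : Fin b → Fin b → ℕ := fun i j => if padj p (φ i) (φ j) then 1 else 0
    have hca : ∀ i, c i = ∑ j, a i j := by
      intro i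
      simp only [hc, a]
      rw [card_filter]
    have e1 : ∑ i, c i ^ 2 = ∑ j, ∑ k, ∑ i, a i j * a i k := by
      have : ∀ i, c i ^ 2 = ∑ j, ∑ k, a i j * a i k := by
        intro i
        rw [hca i, sq, sum_mul_sum]
      rw [sum_congr rfl (fun i _ => this i), sum_comm]
      apply sum_congr rfl
      intro j _
      rw [sum_comm]
    have e2 : ∀ j k, ∑ i, a i j * a i k ≤ if φ k = φ j then b else t := by
      intro j k
      split_ifs with h
      · calc ∑ i, a i j * a i k ≤ ∑ i : Fin b, 1 := by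
              apply sum_le_sum
              intro i _
              simp only [a]
              split_ifs <;> simp
          _ = b := by simp
      · have : ∑ i, a i j * a i k =
            (univ.filter (fun i => padj p (φ i) (φ j) ∧ padj p (φ i) (φ k))).card := by
          rw [card_filter]
          apply sum_congr rfl
          intro i _
          simp only [a]
          by_cases h1 : padj p (φ i) (φ j) <;> by_cases h2 : padj p (φ i) (φ k) <;> simp [h1, h2]
        rw [this]
        by_cases hem : (univ.filter (fun i => padj p (φ i) (φ j) ∧ padj p (φ i) (φ k))).Nonempty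
        · obtain ⟨i0, hi0⟩ := hem
          rw [mem_filter] at hi0
          refine le_trans (card_le_card ?_) (hfib (φ i0))
          intro i hi
          rw [mem_filter] at hi ⊢
          refine ⟨mem_univ _, ?_⟩
          exact common p h (padj_symm p hi.2.2) (padj_symm p hi.2.1) (padj_symm p hi0.2.2)
            (padj_symm p hi0.2.1)
        · rw [not_nonempty_iff_eq_empty] at hem
          rw [hem]
          simp
    rw [e1]
    calc ∑ j, ∑ k, ∑ i, a i j * a i k
        ≤ ∑ j, ∑ k, (if φ k = φ j then b else t) :=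
          sum_le_sum (fun j _ => sum_le_sum (fun k _ => e2 j k))
      _ ≤ ∑ j : Fin b, ∑ k : Fin b, ((if φ k = φ j then b else 0) + t) := by
          apply sum_le_sum; intro j _; apply sum_le_sum; intro k _
          split_ifs <;> omega
      _ ≤ ∑ j : Fin b, (t * b + b * t) := by
          apply sum_le_sum
          intro j _
          rw [sum_add_distrib, ← sum_filter, sum_const, sum_const, card_univ, Fintype.card_fin,
            smul_eq_mul, smul_eq_mul]
          exact Nat.add_le_add_right (Nat.mul_le_mul_right _ (hfib _)) _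
      _ = 2 * b ^ 2 * t := by
          rw [sum_const, card_univ, Fintype.card_fin, smul_eq_mul]
          ring
  have h3 : (∑ i, c i) ^ 2 ≤ b * (2 * b ^ 2 * t) := by
    have := sq_sum_le_card_mul_sum_sq (s := (univ : Finset (Fin b))) (f := c)
    rw [card_univ, Fintype.card_fin] at this
    exact this.trans (Nat.mul_le_mul_left _ h2)
  calc (∑ i, (univ.filter (fun j => near p (φ i) (φ j))).card) ^ 2
      ≤ (b * t + ∑ i, c i) ^ 2 := Nat.pow_le_pow_left h1 2
    _ ≤ 2 * (b * t) ^ 2 + 2 * (∑ i, c i) ^ 2 := by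
        have : ((b * t + ∑ i, c i : ℕ) : ℤ) ^ 2 ≤ 2 * ((b * t : ℕ) : ℤ) ^ 2
            + 2 * ((∑ i, c i : ℕ) : ℤ) ^ 2 := by
          push_cast
          nlinarith [sq_nonneg (((b : ℤ) * t) - ∑ i, (c i : ℤ))]
        exact_mod_cast this
    _ ≤ 2 * (b ^ 3 * t) + 2 * (b * (2 * b ^ 2 * t)) := by
        apply Nat.add_le_add _ (Nat.mul_le_mul_left _ h3)
        apply Nat.mul_le_mul_left
        calc (b * t) ^ 2 = b ^ 2 * (t * t) := by ring
          _ ≤ b ^ 2 * (b * t) := Nat.mul_le_mul_left _ (Nat.mul_le_mul_right _ htb)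
          _ = b ^ 3 * t := by ring
    _ = 6 * b ^ 3 * t := by ring

/-- AM-GM, integer form. -/
theorem amgm (b : ℕ) (N : Fin b → ℕ) : b ^ b * ∏ i, N i ≤ (∑ i, N i) ^ b := by
  rcases Nat.eq_zero_or_pos b with hb | hb
  · subst hb; simp
  rcases Nat.eq_zero_or_pos (∑ i, N i) with h0 | h0
  · have : ∏ i, N i = 0 := by
      rw [prod_eq_zero_iff]
      exact ⟨⟨0, hb⟩, mem_univ _, by
        rw [sum_eq_zero_iff] at h0
        exact h0 _ (mem_univ _)⟩
    rw [this]
    simp
  · have hA : (0 : ℝ) < (∑ i, (N i : ℝ)) := by exact_mod_cast h0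
    have hb' : (0 : ℝ) < b := by exact_mod_cast hb
    have key : ∏ i, ((b : ℝ) * N i / ∑ i, (N i : ℝ)) ≤ 1 := by
      calc ∏ i, ((b : ℝ) * N i / ∑ i, (N i : ℝ))
          ≤ ∏ i, Real.exp ((b : ℝ) * N i / (∑ i, (N i : ℝ)) - 1) := by
            apply prod_le_prod
            · intro i _; positivity
            · intro i _
              have := Real.add_one_le_exp ((b : ℝ) * N i / (∑ i, (N i : ℝ)) - 1)
              linarith
        _ = Real.exp (∑ i, ((b : ℝ) * N i / (∑ i, (N i : ℝ)) - 1)) := by
            rw [Real.exp_sum]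
        _ = 1 := by
            rw [sum_sub_distrib, ← sum_div, ← mul_sum, mul_div_assoc, div_self hA.ne']
            simp
    rw [prod_div_distrib, prod_mul_distrib, prod_const, prod_const, card_univ, Fintype.card_fin,
      div_le_one (by positivity)] at key
    exact_mod_cast key

open Classical in
/-- Counting the permutations compatible with `φ`. -/
theorem perm_count (p : ℕ) [Fact p.Prime] (b t : ℕ) (hb : 0 < b) (htb : t ≤ b)
    (φ : Fin b → ZMod p × ZMod p) (hfib : ∀ x, (univ.filter (fun i => φ i = x)).card ≤ t) :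
    ((univ.filter (fun σ : Equiv.Perm (Fin b) =>
      ∀ i, near p (φ i) (φ (σ i)))).card) ^ 2 ≤ (6 * b * t) ^ b := by
  set N : Fin b → ℕ := fun i => (univ.filter (fun j => near p (φ i) (φ j))).card with hN
  have h1 : (univ.filter (fun σ : Equiv.Perm (Fin b) =>
      ∀ i, near p (φ i) (φ (σ i)))).card ≤ ∏ i, N i := by
    have : ∏ i, N i =
        (Fintype.piFinset (fun i => univ.filter (fun j => near p (φ i) (φ j)))).card := by
      rw [Fintype.card_piFinset]
    rw [this]
    apply card_le_card_of_injOn (fun σ : Equiv.Perm (Fin b) => (σ : Fin b → Fin b))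
    · intro σ hσ
      rw [mem_coe, mem_filter] at hσ
      rw [mem_coe, Fintype.mem_piFinset]
      intro i
      rw [mem_filter]
      exact ⟨mem_univ _, hσ.2 i⟩
    · intro σ _ τ _ h
      exact DFunLike.coe_injective h
  have h2 := amgm b N
  have h3 := near_count p b t htb φ hfib
  have h4 : b ^ (2 * b) * (∏ i, N i) ^ 2 ≤ b ^ (2 * b) * (6 * b * t) ^ b := by
    calc b ^ (2 * b) * (∏ i, N i) ^ 2 = (b ^ b * ∏ i, N i) ^ 2 := by
          rw [mul_pow, ← pow_mul, mul_comm b 2]
      _ ≤ ((∑ i, N i) ^ b) ^ 2 := Nat.pow_le_pow_left h2 2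
      _ = ((∑ i, N i) ^ 2) ^ b := by rw [← pow_mul, ← pow_mul, mul_comm]
      _ ≤ (6 * b ^ 3 * t) ^ b := Nat.pow_le_pow_left h3 b
      _ = b ^ (2 * b) * (6 * b * t) ^ b := by
          rw [pow_mul, ← mul_pow]
          congr 1
          ring
  have h5 : (∏ i, N i) ^ 2 ≤ (6 * b * t) ^ b :=
    Nat.le_of_mul_le_mul_left h4 (by positivity)
  exact (Nat.pow_le_pow_left h1 2).trans h5

theorem pow_le_three_pow_mul_factorial (b : ℕ) : b ^ b ≤ 3 ^ b * b.factorial := by
  have h := Real.pow_div_factorial_le_exp (b : ℝ) (by positivity) b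
  have h2 : Real.exp b ≤ 3 ^ b := by
    have : Real.exp (b : ℝ) = Real.exp 1 ^ b := by
      rw [← Real.exp_nat_mul, mul_one]
    rw [this]
    apply pow_le_pow_left₀ (Real.exp_pos _).le
    linarith [Real.exp_one_lt_d9]
  have h3 : (b : ℝ) ^ b ≤ 3 ^ b * b.factorial := by
    rw [div_le_iff₀ (by positivity)] at h
    calc (b : ℝ) ^ b ≤ Real.exp b * b.factorial := h
      _ ≤ 3 ^ b * b.factorial := by gcongr
  exact_mod_cast h3

open Classical in
/-- Existence of good permutations. -/
theorem exists_perms (p : ℕ) [Fact p.Prime] (b t : ℕ) (hb : 0 < b) (htb : t ≤ b)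
    (hcond : p ^ 2 * (6 * b * t) ^ 8 * 3 ^ 16 < b ^ 16) :
    ∃ σ : Fin 16 → Equiv.Perm (Fin b), ∀ φ : Fin b → ZMod p × ZMod p,
      (∀ x, (univ.filter (fun i => φ i = x)).card ≤ t) →
      ∃ l i, ¬ near p (φ i) (φ (σ l i)) := by
  by_contra hcon
  push Not at hcon
  let bad : (Fin b → ZMod p × ZMod p) → Finset (Fin 16 → Equiv.Perm (Fin b)) := fun φ =>
    if (∀ x, (univ.filter (fun i => φ i = x)).card ≤ t) then
      Fintype.piFinset (fun _ => univ.filter (fun σ : Equiv.Perm (Fin b) =>
        ∀ i, near p (φ i) (φ (σ i)))) else ∅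
  have hcov : (univ : Finset (Fin 16 → Equiv.Perm (Fin b))) ⊆ univ.biUnion bad := by
    intro σ _
    obtain ⟨φ, hφ, h⟩ := hcon σ
    rw [mem_biUnion]
    refine ⟨φ, mem_univ _, ?_⟩
    simp only [bad]
    rw [if_pos hφ, Fintype.mem_piFinset]
    intro l
    rw [mem_filter]
    exact ⟨mem_univ _, h l⟩
  have hbad : ∀ φ, (bad φ).card ≤ ((6 * b * t) ^ b) ^ 8 := by
    intro φ
    simp only [bad]
    split_ifs with hφ
    · rw [Fintype.card_piFinset, prod_const, card_univ, Fintype.card_fin]
      calc _ = ((univ.filter (fun σ : Equiv.Perm (Fin b) =>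
            ∀ i, near p (φ i) (φ (σ i)))).card ^ 2) ^ 8 := by rw [← pow_mul]
        _ ≤ _ := Nat.pow_le_pow_left (perm_count p b t hb htb φ hφ) 8
    · simp
  have hcard := card_le_card hcov
  have htot : (b.factorial) ^ 16 ≤ (p ^ 2) ^ b * ((6 * b * t) ^ b) ^ 8 := by
    calc (b.factorial) ^ 16 = (univ : Finset (Fin 16 → Equiv.Perm (Fin b))).card := by
          rw [card_univ, Fintype.card_fun, Fintype.card_perm, Fintype.card_fin, Fintype.card_fin]
      _ ≤ (univ.biUnion bad).card := hcard
      _ ≤ ∑ φ, (bad φ).card := card_biUnion_le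
      _ ≤ ∑ φ : Fin b → ZMod p × ZMod p, ((6 * b * t) ^ b) ^ 8 := sum_le_sum (fun φ _ => hbad φ)
      _ = (p ^ 2) ^ b * ((6 * b * t) ^ b) ^ 8 := by
          rw [sum_const, card_univ, Fintype.card_fun, Fintype.card_prod, ZMod.card,
            Fintype.card_fin, smul_eq_mul, ← sq]
  have h1 := pow_le_three_pow_mul_factorial b
  have h2 : (b ^ 16) ^ b ≤ (p ^ 2 * (6 * b * t) ^ 8 * 3 ^ 16) ^ b := by
    calc (b ^ 16) ^ b = (b ^ b) ^ 16 := by rw [← pow_mul, ← pow_mul, mul_comm]
      _ ≤ (3 ^ b * b.factorial) ^ 16 := Nat.pow_le_pow_left h1 16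
      _ = (3 ^ b) ^ 16 * (b.factorial) ^ 16 := mul_pow _ _ _
      _ ≤ (3 ^ b) ^ 16 * ((p ^ 2) ^ b * ((6 * b * t) ^ b) ^ 8) := Nat.mul_le_mul_left _ htot
      _ = (p ^ 2 * (6 * b * t) ^ 8 * 3 ^ 16) ^ b := by
          generalize 6 * b * t = w
          rw [mul_pow, mul_pow, ← pow_mul, ← pow_mul, ← pow_mul, ← pow_mul, ← pow_mul,
            mul_comm b 8, mul_comm b 16]
          ring
  have h3 := Nat.pow_lt_pow_left hcond hb.ne'
  exact absurd h2 (not_le.2 h3)

end Pool.Agent.H267R3
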