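import Mathlib
import Pool.Agent.H267R3.Count

set_option autoImplicit false

namespace Pool.Agent.H267R3

open Finset

/-- The relation generating the graph: a Hamiltonian path plus permutation edges on the first
`b` vertices. -/
def blockRel {n b : ℕ} (hbn : b ≤ n) (σ : Fin 16 → Equiv.Perm (Fin b)) (x y : Fin n) : Prop :=
  x.val + 1 = y.val ∨ ∃ l i, x = Fin.castLE hbn i ∧ y = Fin.castLE hbn (σ l i)

def blockG {n b : ℕ} (hbn : b ≤ n) (σ : Fin 16 → Equiv.Perm (Fin b)) : SimpleGraph (Fin n) :=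
  SimpleGraph.fromRel (blockRel hbn σ)

variable {n b : ℕ} (hbn : b ≤ n) (σ : Fin 16 → Equiv.Perm (Fin b))

theorem blockG_adj (x y : Fin n) :
    (blockG hbn σ).Adj x y ↔ x ≠ y ∧ (blockRel hbn σ x y ∨ blockRel hbn σ y x) := by
  unfold blockG
  rw [SimpleGraph.fromRel_adj]

theorem blockG_connected (hn : 0 < n) : (blockG hbn σ).Connected := by
  obtain ⟨k, rfl⟩ : ∃ k, n = k + 1 := ⟨n - 1, by omega⟩
  refine SimpleGraph.Connected.mono ?_ (SimpleGraph.pathGraph_connected k)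
  intro x y h
  rw [SimpleGraph.pathGraph_adj] at h
  rw [blockG_adj]
  constructor
  · rintro rfl
    omega
  · rcases h with h | h
    · exact Or.inl (Or.inl h)
    · exact Or.inr (Or.inl h)

theorem blockG_perm (l : Fin 16) (i : Fin b) (h : σ l i ≠ i) :
    (blockG hbn σ).Adj (Fin.castLE hbn i) (Fin.castLE hbn (σ l i)) := by
  rw [blockG_adj]
  constructor
  · intro h'
    exact h (Fin.castLE_injective hbn h').symm
  · exact Or.inl (Or.inr ⟨l, i, rfl, rfl⟩)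

theorem blockG_band (hb : 0 < b) (x y : Fin n) (h : (blockG hbn σ).Adj x y) :
    |((x : ℕ) : ℝ) - ((y : ℕ) : ℝ)| ≤ (b : ℝ) := by
  have key : ∀ x y : Fin n, blockRel hbn σ x y →
      x.val ≤ y.val + b ∧ y.val ≤ x.val + b := by
    intro x y h
    rcases h with h | ⟨l, i, rfl, rfl⟩
    · omega
    · have h1 := i.isLt
      have h2 := (σ l i).isLt
      simp only [Fin.val_castLE]
      omega
  have h2 : x.val ≤ y.val + b ∧ y.val ≤ x.val + b := by
    rcases ((blockG_adj hbn σ x y).1 h).2 with h | h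
    · exact key _ _ h
    · exact (key _ _ h).symm
  have h3 : ((x : ℕ) : ℝ) ≤ (y : ℕ) + b := by exact_mod_cast h2.1
  have h4 : ((y : ℕ) : ℝ) ≤ (x : ℕ) + b := by exact_mod_cast h2.2
  rw [abs_le]
  constructor <;> linarith

/-- Codes for neighbours. -/
def codeRel (v w : Fin n) : (Bool ⊕ (Fin 16 × Bool)) → Prop
  | .inl true => v.val + 1 = w.val
  | .inl false => w.val + 1 = v.val
  | .inr (l, true) => ∃ i, v = Fin.castLE hbn i ∧ w = Fin.castLE hbn (σ l i)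
  | .inr (l, false) => ∃ i, w = Fin.castLE hbn i ∧ v = Fin.castLE hbn (σ l i)

theorem blockG_degree (v : Fin n) : ((blockG hbn σ).neighborSet v).ncard ≤ 34 := by
  classical
  have hex : ∀ w : (blockG hbn σ).neighborSet v, ∃ c, codeRel hbn σ v w c := by
    rintro ⟨w, hw⟩
    rw [SimpleGraph.mem_neighborSet, blockG_adj] at hw
    rcases hw.2 with (h | ⟨l, i, h⟩) | (h | ⟨l, i, h⟩)
    · exact ⟨.inl true, h⟩
    · exact ⟨.inr (l, true), ⟨i, h⟩⟩
    · exact ⟨.inl false, h⟩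
    · exact ⟨.inr (l, false), ⟨i, h⟩⟩
  choose f hf using hex
  have hinj : Function.Injective f := by
    intro w w' hww
    have h1 := hf w
    have h2 := hf w'
    rw [hww] at h1
    apply Subtype.ext
    revert h1 h2
    generalize f w' = c
    rcases c with (c | ⟨l, c⟩) <;> cases c <;> intro h1 h2
    · apply Fin.ext
      have h1 : (w : Fin n).val + 1 = v.val := h1
      have h2 : (w' : Fin n).val + 1 = v.val := h2
      omega
    · apply Fin.ext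
      have h1 : v.val + 1 = (w : Fin n).val := h1
      have h2 : v.val + 1 = (w' : Fin n).val := h2
      omega
    · obtain ⟨i, hi, hi'⟩ := h1
      obtain ⟨j, hj, hj'⟩ := h2
      rw [hi'] at hj'
      have := (σ l).injective (Fin.castLE_injective hbn hj')
      rw [hi, hj, this]
    · obtain ⟨i, hi, hi'⟩ := h1
      obtain ⟨j, hj, hj'⟩ := h2
      rw [hi] at hj
      have := Fin.castLE_injective hbn hj
      rw [hi', hj', this]
  have h1 := Fintype.card_le_of_injective f hinj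
  have h2 : Fintype.card (Bool ⊕ (Fin 16 × Bool)) = 34 := by simp
  rw [h2] at h1
  rw [← Nat.card_coe_set_eq, Nat.card_eq_fintype_card]
  exact h1

theorem arith_r (p : ℕ) (hp0 : 0 < p) : (p + Nat.sqrt (p ^ 3) + 1) ^ 2 ≤ 9 * p ^ 3 := by
  have h1 : Nat.sqrt (p ^ 3) * Nat.sqrt (p ^ 3) ≤ p ^ 3 := Nat.sqrt_le _
  have h2 : 1 ≤ p ^ 3 := Nat.one_le_pow _ _ hp0
  have h3 : p ^ 2 ≤ p ^ 3 := Nat.pow_le_pow_right hp0 (by norm_num)
  generalize Nat.sqrt (p ^ 3) = s at h1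
  have h4 : ((p : ℤ) + s + 1) ^ 2 ≤ 3 * ((p : ℤ) ^ 2 + s * s + 1) := by
    nlinarith [sq_nonneg ((p : ℤ) - s), sq_nonneg ((p : ℤ) - 1), sq_nonneg ((s : ℤ) - 1)]
  have h5 : (p + s + 1) ^ 2 ≤ 3 * (p ^ 2 + s * s + 1) := by exact_mod_cast h4
  calc (p + s + 1) ^ 2 ≤ 3 * (p ^ 2 + s * s + 1) := h5
    _ ≤ 3 * (p ^ 3 + p ^ 3 + p ^ 3) := by gcongr
    _ = 9 * p ^ 3 := by ring

theorem arith_t (p m r : ℕ) (hm : 1 ≤ m) (hr2 : r ^ 2 ≤ 9 * p ^ 3) (C : ℕ) (hC : 9 ≤ C)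
    (hp : C * m ^ 4 < p) : r * m ≤ p ^ 2 := by
  have hm4 : m ^ 2 ≤ m ^ 4 := Nat.pow_le_pow_right hm (by norm_num)
  have h1 : (r * m) ^ 2 ≤ (p ^ 2) ^ 2 := by
    calc (r * m) ^ 2 = r ^ 2 * m ^ 2 := by ring
      _ ≤ 9 * p ^ 3 * m ^ 2 := Nat.mul_le_mul_right _ hr2
      _ = p ^ 3 * (9 * m ^ 2) := by ring
      _ ≤ p ^ 3 * p := by
          apply Nat.mul_le_mul_left
          calc 9 * m ^ 2 ≤ C * m ^ 4 := Nat.mul_le_mul hC hm4
            _ ≤ p := hp.le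
      _ = (p ^ 2) ^ 2 := by ring
  exact (Nat.pow_le_pow_iff_left (by norm_num)).1 h1

theorem arith_cond (p m s r : ℕ) (hs : 0 < s) (hp0 : 0 < p) (hr2 : r ^ 2 ≤ 9 * p ^ 3) (C : ℕ)
    (hC : C = 6 ^ 4 * 3 ^ 12) (hp : C * m ^ 4 < p) :
    p ^ 2 * (6 * (p ^ 2 * s) * (r * m * s)) ^ 8 * 3 ^ 16 < (p ^ 2 * s) ^ 16 := by
  have h8 : r ^ 8 ≤ (9 * p ^ 3) ^ 4 := by
    calc r ^ 8 = (r ^ 2) ^ 4 := by ring
      _ ≤ _ := Nat.pow_le_pow_left hr2 4
  have hlt : C ^ 2 * m ^ 8 < p ^ 2 := by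
    calc C ^ 2 * m ^ 8 = (C * m ^ 4) ^ 2 := by ring
      _ < p ^ 2 := Nat.pow_lt_pow_left hp (by norm_num)
  have hpos : 0 < p ^ 30 * s ^ 16 := Nat.mul_pos (Nat.pow_pos hp0) (Nat.pow_pos hs)
  calc p ^ 2 * (6 * (p ^ 2 * s) * (r * m * s)) ^ 8 * 3 ^ 16
      = r ^ 8 * (6 ^ 8 * 3 ^ 16 * m ^ 8 * p ^ 18 * s ^ 16) := by ring
    _ ≤ (9 * p ^ 3) ^ 4 * (6 ^ 8 * 3 ^ 16 * m ^ 8 * p ^ 18 * s ^ 16) :=
        Nat.mul_le_mul_right _ h8
    _ = (C ^ 2 * m ^ 8) * (p ^ 30 * s ^ 16) := by rw [hC]; ring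
    _ < p ^ 2 * (p ^ 30 * s ^ 16) := Nat.mul_lt_mul_of_pos_right hlt hpos
    _ = (p ^ 2 * s) ^ 16 := by ring

/-- Main combinatorial statement: for every `m ≥ 1` there is `r ≥ 1` such that for arbitrarily
large `n` there is a connected graph on `n` vertices of maximum degree at most `34`, bandwidth at
most `n/m`, and a graph on `(r-1)(n-1)+1` vertices containing no copy of it and no independent
set of size `r`. -/
theorem main_construction (m : ℕ) (hm : 1 ≤ m) : ∃ r : ℕ, 1 ≤ r ∧ ∀ n₀ : ℕ, ∃ n : ℕ, n₀ ≤ n ∧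
    ∃ b : ℕ, n = m * b ∧ 0 < b ∧ ∃ G : SimpleGraph (Fin n), G.Connected ∧
      (∀ v : Fin n, (G.neighborSet v).ncard ≤ 34) ∧
      (∀ x y : Fin n, G.Adj x y → |((x : ℕ) : ℝ) - ((y : ℕ) : ℝ)| ≤ (b : ℝ)) ∧
      ∃ F : SimpleGraph (Fin ((r - 1) * (n - 1) + 1)),
        (¬ ∃ f : Fin n → Fin ((r - 1) * (n - 1) + 1), Function.Injective f ∧
          ∀ u v : Fin n, G.Adj u v → F.Adj (f u) (f v)) ∧
        (¬ ∃ g : Fin r → Fin ((r - 1) * (n - 1) + 1), Function.Injective g ∧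
          ∀ u v : Fin r, u ≠ v → Fᶜ.Adj (g u) (g v)) := by
  classical
  obtain ⟨C, hC⟩ : ∃ C : ℕ, C = 6 ^ 4 * 3 ^ 12 := ⟨_, rfl⟩
  have hC9 : 9 ≤ C := by rw [hC]; norm_num
  obtain ⟨p, hpm, hprime⟩ := Nat.exists_infinite_primes (C * m ^ 4 + 1)
  have hpm' : C * m ^ 4 < p := hpm
  have : Fact p.Prime := ⟨hprime⟩
  have hp0 : 0 < p := hprime.pos
  obtain ⟨r, hr⟩ : ∃ r, r = p + Nat.sqrt (p ^ 3) + 1 := ⟨_, rfl⟩
  have hr2 : r ^ 2 ≤ 9 * p ^ 3 := by rw [hr]; exact arith_r p hp0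
  have hr0 : 0 < r := by omega
  refine ⟨r, hr0, ?_⟩
  intro n₀
  obtain ⟨s, hs⟩ : ∃ s, s = n₀ + 1 := ⟨_, rfl⟩
  have hs0 : 0 < s := by omega
  have hcond0 := arith_cond p m s r hs0 hp0 hr2 C hC hpm'
  obtain ⟨b, hb⟩ : ∃ b, b = p ^ 2 * s := ⟨_, rfl⟩
  have hb0 : 0 < b := by rw [hb]; exact Nat.mul_pos (Nat.pow_pos hp0) hs0
  obtain ⟨t, ht⟩ : ∃ t, t = r * m * s := ⟨_, rfl⟩
  have htb : t ≤ b := by
    rw [ht, hb]
    exact Nat.mul_le_mul_right _ (arith_t p m r hm hr2 C hC9 hpm')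
  have hcond : p ^ 2 * (6 * b * t) ^ 8 * 3 ^ 16 < b ^ 16 := by
    rw [hb, ht]
    exact hcond0
  obtain ⟨σ, hσ⟩ := exists_perms p b t hb0 htb hcond
  have hbn : b ≤ m * b := Nat.le_mul_of_pos_left _ hm
  have hn00 : n₀ ≤ m * b := by
    calc n₀ ≤ s := by omega
      _ ≤ p ^ 2 * s := Nat.le_mul_of_pos_left _ (Nat.pow_pos hp0)
      _ = b := hb.symm
      _ ≤ m * b := hbn
  have hmb0 : 0 < m * b := Nat.mul_pos hm hb0
  have hNle0 : (r - 1) * (m * b - 1) + 1 ≤ p * p * t := by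
    have h1 : (r - 1) * (m * b - 1) + 1 ≤ r * (m * b) := by
      obtain ⟨r', hr'⟩ : ∃ r', r = r' + 1 := ⟨r - 1, by omega⟩
      obtain ⟨n', hn'⟩ : ∃ n', m * b = n' + 1 := ⟨m * b - 1, by omega⟩
      rw [hn', hr']
      simp only [Nat.add_sub_cancel]
      nlinarith
    calc (r - 1) * (m * b - 1) + 1 ≤ r * (m * b) := h1
      _ = p * p * t := by rw [hb, ht]; ring
  obtain ⟨n, hn⟩ : ∃ n, n = m * b := ⟨_, rfl⟩
  rw [← hn] at hbn hn00 hmb0 hNle0
  refine ⟨n, hn00, b, hn, hb0, blockG hbn σ, blockG_connected hbn σ hmb0,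
    blockG_degree hbn σ, blockG_band hbn σ hb0, ?_⟩
  obtain ⟨N, hN⟩ : ∃ N, N = (r - 1) * (n - 1) + 1 := ⟨_, rfl⟩
  rw [← hN] at hNle0 ⊢
  have hNle : Fintype.card (Fin N) ≤ Fintype.card ((ZMod p × ZMod p) × Fin t) := by
    rw [Fintype.card_prod, Fintype.card_prod, ZMod.card, Fintype.card_fin, Fintype.card_fin]
    exact hNle0
  obtain ⟨ψ⟩ : Nonempty (Fin N ↪ (ZMod p × ZMod p) × Fin t) :=
    Function.Embedding.nonempty_of_card_le hNle
  let F : SimpleGraph (Fin N) :=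
    { Adj := fun u v => u ≠ v ∧ near p (ψ u).1 (ψ v).1
      symm := ⟨fun u v h => ⟨h.1.symm, near_symm p h.2⟩⟩
      loopless := ⟨fun u h => h.1 rfl⟩ }
  refine ⟨F, ?_, ?_⟩
  · rintro ⟨f, hf, hadj⟩
    obtain ⟨l, i, hli⟩ := hσ (fun i => (ψ (f (Fin.castLE hbn i))).1) (by
      intro x
      have : (univ.filter (fun i : Fin b => (ψ (f (Fin.castLE hbn i))).1 = x)).card ≤
          (univ : Finset (Fin t)).card := by
        apply card_le_card_of_injOn (fun i : Fin b => (ψ (f (Fin.castLE hbn i))).2)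
        · intro i _
          simp
        · intro i hi j hj hij
          rw [mem_coe, mem_filter] at hi hj
          have h1 : ψ (f (Fin.castLE hbn i)) = ψ (f (Fin.castLE hbn j)) :=
            Prod.ext (hi.2.trans hj.2.symm) hij
          exact Fin.castLE_injective hbn (hf (ψ.injective h1))
      rwa [card_univ, Fintype.card_fin] at this)
    by_cases h : σ l i = i
    · exact hli (Or.inl (by rw [h]))
    · exact hli (hadj _ _ (blockG_perm hbn σ l i h)).2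
  · rintro ⟨g, hg, hadj⟩
    have hnn : ∀ u v : Fin r, u ≠ v → ¬ near p (ψ (g u)).1 (ψ (g v)).1 := by
      intro u v huv hnear
      have h1 := hadj u v huv
      rw [SimpleGraph.compl_adj] at h1
      exact h1.2 ⟨h1.1, hnear⟩
    have hinj : Function.Injective (fun u : Fin r => (ψ (g u)).1) := by
      intro u v huv
      by_contra hne
      exact hnn u v hne (Or.inl huv)
    have hno := no_indep p (univ.image (fun u : Fin r => (ψ (g u)).1)) (by
      intro x hx y hy hxy hadj'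
      obtain ⟨u, -, rfl⟩ := mem_image.1 hx
      obtain ⟨v, -, rfl⟩ := mem_image.1 hy
      have huv : u ≠ v := by
        rintro rfl
        exact hxy rfl
      exact hnn u v huv (Or.inr hadj'))
    rw [card_image_of_injective _ hinj, card_univ, Fintype.card_fin] at hno
    omega

end Pool.Agent.H267R3
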