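import Mathlib

/-!
# The Folkman / Nešetřil–Rödl theorem for edge colourings of cliques

For `n ≥ 2` and a finite set `κ` of colours there is a finite `K_{n+1}`-free graph `Γ` such that
for every `κ`-colouring `χ` of the ordered pairs of vertices there is a sequence
`e 0, …, e (n-1)` of pairwise adjacent vertices such that `χ (e i) (e j)` is the same colour for
all `i < j`.  The proof is the partite construction (Nešetřil–Rödl), with the Hales–Jewett theorem
of Mathlib as the partite lemma.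
-/

open Combinatorics

namespace H267R3.Folk

/-- A system with `N` parts. -/
structure Sys (N : ℕ) where
  X : Type
  fin : Finite X
  Γ : SimpleGraph X
  π : X → Fin N
  part : ∀ x y, Γ.Adj x y → π x ≠ π y

/-- A part-preserving homomorphism of systems. -/
structure Emb {N : ℕ} (P Q : Sys N) where
  f : P.X → Q.X
  adj : ∀ x y, P.Γ.Adj x y → Q.Γ.Adj (f x) (f y)
  part : ∀ x, Q.π (f x) = P.π x

section Step

variable {N : ℕ} (P : Sys N) (a b : Fin N)

/-- Edges between part `a` and part `b`. -/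
abbrev E : Type := {e : P.X × P.X // P.π e.1 = a ∧ P.π e.2 = b ∧ P.Γ.Adj e.1 e.2}

variable {P a b} {ι : Type}

open Classical in
/-- The copy of `P` belonging to the line `l`. -/
noncomputable def F (l : Line (E P a b) ι) (x : P.X) : Option (Line (E P a b) ι) × (ι → P.X) :=
  if P.π x = a then (none, fun t => (l.idxFun t).elim x (fun e => e.1.1))
  else if P.π x = b then (none, fun t => (l.idxFun t).elim x (fun e => e.1.2))
  else (some l, fun _ => x)

lemma F_a (l : Line (E P a b) ι) {x : P.X} (h : P.π x = a) :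
    F l x = (none, fun t => (l.idxFun t).elim x (fun e => e.1.1)) := by
  simp [F, h]

lemma F_b (hab : a ≠ b) (l : Line (E P a b) ι) {x : P.X} (h : P.π x = b) :
    F l x = (none, fun t => (l.idxFun t).elim x (fun e => e.1.2)) := by
  have : P.π x ≠ a := by rw [h]; exact hab.symm
  simp [F, h, hab.symm]

lemma F_z (l : Line (E P a b) ι) {x : P.X} (h : P.π x ≠ a) (h' : P.π x ≠ b) :
    F l x = (some l, fun _ => x) := by
  simp [F, h, h']

lemma π_F (hab : a ≠ b) (l : Line (E P a b) ι) (x : P.X) (t : ι) :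
    P.π ((F l x).2 t) = P.π x := by
  by_cases h : P.π x = a
  · rw [F_a l h]
    cases ht : l.idxFun t with
    | none => simp [ht]
    | some e => simp [ht, h, e.2.1]
  · by_cases h' : P.π x = b
    · rw [F_b hab l h']
      cases ht : l.idxFun t with
      | none => simp [ht]
      | some e => simp [ht, h', e.2.2.1]
    · rw [F_z l h h']

lemma F_at (hab : a ≠ b) (l : Line (E P a b) ι) (x : P.X) {t : ι} (ht : l.idxFun t = none) :
    (F l x).2 t = x := by
  by_cases h : P.π x = a
  · rw [F_a l h]; simp [ht]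
  · by_cases h' : P.π x = b
    · rw [F_b hab l h']; simp [ht]
    · rw [F_z l h h']

lemma F_inj (hab : a ≠ b) (l : Line (E P a b) ι) {x y : P.X} (h : F l x = F l y) : x = y := by
  obtain ⟨t, ht⟩ := l.proper
  rw [← F_at hab l x ht, h, F_at hab l y ht]

lemma F_some (hab : a ≠ b) {l l0 : Line (E P a b) ι} {x : P.X} (h : (F l x).1 = some l0) :
    l = l0 ∧ P.π x ≠ a ∧ P.π x ≠ b := by
  by_cases h1 : P.π x = a
  · rw [F_a l h1] at h; simp at h
  · by_cases h2 : P.π x = b
    · rw [F_b hab l h2] at h; simp at h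
    · rw [F_z l h1 h2] at h
      exact ⟨by simpa using h, h1, h2⟩

lemma F_none {l : Line (E P a b) ι} {x : P.X} (h : (F l x).1 = none) :
    P.π x = a ∨ P.π x = b := by
  by_contra hc
  push Not at hc
  rw [F_z l hc.1 hc.2] at h
  simp at h

/-- The new graph. -/
def G' (hab : a ≠ b) : SimpleGraph (Option (Line (E P a b) ι) × (ι → P.X)) where
  Adj p q := ∃ l x y, P.Γ.Adj x y ∧ F l x = p ∧ F l y = q
  symm := ⟨by
    rintro p q ⟨l, x, y, h, h1, h2⟩
    exact ⟨l, y, x, h.symm, h2, h1⟩⟩
  loopless := ⟨by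
    rintro p ⟨l, x, y, h, h1, h2⟩
    have := F_inj hab l (h1.trans h2.symm)
    exact h.ne this⟩

lemma coord (hab : a ≠ b) {p q : Option (Line (E P a b) ι) × (ι → P.X)}
    (h : (G' hab).Adj p q) (hp : p.1 = none) (hq : q.1 = none) (t : ι) :
    P.Γ.Adj (p.2 t) (q.2 t) := by
  obtain ⟨l, x, y, h, rfl, rfl⟩ := h
  have hx := F_none hp
  have hy := F_none hq
  have hne := P.part x y h
  rcases hx with hx | hx
  · rcases hy with hy | hy
    · exact absurd (hx.trans hy.symm) hne
    · rw [F_a l hx, F_b hab l hy]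
      cases ht : l.idxFun t with
      | none => simpa [ht] using h
      | some e => simpa [ht] using e.2.2.2
  · rcases hy with hy | hy
    · rw [F_b hab l hx, F_a l hy]
      cases ht : l.idxFun t with
      | none => simpa [ht] using h
      | some e => simpa [ht] using e.2.2.2.symm
    · exact absurd (hx.trans hy.symm) hne

instance finLine [Finite ι] [Finite P.X] : Finite (Line (E P a b) ι) :=
  Finite.of_injective (fun l : Line (E P a b) ι => l.idxFun) (by
    intro l l' h
    ext1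
    exact h)

lemma cliqueFree (hab : a ≠ b) {n : ℕ} (hn : 2 ≤ n) (hP : P.Γ.CliqueFree (n + 1)) (t0 : ι) :
    (G' (P := P) (ι := ι) hab).CliqueFree (n + 1) := by
  classical
  intro s hs
  have hcl := hs.isClique
  have hcard := hs.card_eq
  have hother : ∀ p ∈ s, ∃ q ∈ s, q ≠ p := by
    intro p hp
    apply Finset.exists_mem_ne (by omega)
  -- some vertex of `s` is of the form `(some l0, z)`
  have hex : ∃ p ∈ s, ∃ l0, p.1 = some l0 := by
    by_contra hc
    push Not at hc
    have hnone : ∀ p ∈ s, p.1 = none := by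
      intro p hp
      cases h : p.1 with
      | none => rfl
      | some l => exact absurd h (hc p hp l)
    have hmaps : ∀ p ∈ s, P.π (p.2 t0) ∈ ({a, b} : Finset (Fin N)) := by
      intro p hp
      obtain ⟨q, hq, hqp⟩ := hother p hp
      obtain ⟨l, x, y, h, h1, h2⟩ := hcl hp hq hqp.symm
      have h3 : (F l x).1 = none := by rw [h1]; exact hnone p hp
      have h4 := F_none h3
      have h5 := π_F hab l x t0
      rw [h1] at h5
      rw [h5]
      simpa using h4
    have hinj : Set.InjOn (fun p : Option (Line (E P a b) ι) × (ι → P.X) => P.π (p.2 t0)) s := by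
      intro p hp q hq hpq
      by_contra hne
      have := hcl hp hq hne
      exact P.part _ _ (coord hab this (hnone p hp) (hnone q hq) t0) hpq
    have h1 := Finset.card_le_card_of_injOn _ hmaps hinj
    have h2 : ({a, b} : Finset (Fin N)).card ≤ 2 := Finset.card_le_two
    omega
  obtain ⟨p, hp, l0, hpl⟩ := hex
  obtain ⟨t1, ht1⟩ := l0.proper
  have himg : ∀ q ∈ s, F l0 (q.2 t1) = q := by
    have key : ∀ q, (∃ l x y, P.Γ.Adj x y ∧ F l x = p ∧ F l y = q) →
        F l0 (q.2 t1) = q ∧ F l0 (p.2 t1) = p := by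
      rintro q ⟨l, x, y, h, h1, h2⟩
      have h3 : (F l x).1 = some l0 := by rw [h1]; exact hpl
      obtain ⟨rfl, -, -⟩ := F_some hab h3
      constructor
      · rw [← h2, F_at hab l y ht1]
      · rw [← h1, F_at hab l x ht1]
    intro q hq
    by_cases hqp : q = p
    · subst hqp
      obtain ⟨q', hq', hne⟩ := hother q hq
      exact (key q' (hcl hq hq' hne.symm)).2
    · exact (key q (hcl hp hq (Ne.symm hqp))).1
  apply hP (s.image (fun q => q.2 t1))
  have hinj : Set.InjOn (fun q : Option (Line (E P a b) ι) × (ι → P.X) => q.2 t1) s := by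
    intro q hq q' hq' h
    have h1 := himg q hq
    have h2 := himg q' hq'
    simp only at h
    rw [← h1, ← h2, h]
  refine ⟨?_, by rw [Finset.card_image_of_injOn hinj, hcard]⟩
  intro u hu v hv huv
  simp only [Finset.coe_image, Set.mem_image, Finset.mem_coe] at hu hv
  obtain ⟨q, hq, rfl⟩ := hu
  obtain ⟨q', hq', rfl⟩ := hv
  have hne : q ≠ q' := fun h => huv (by rw [h])
  have hadj := hcl hq hq' hne
  cases hq1 : q.1 with
  | some l1 =>
    obtain ⟨l, x, y, h, h1, h2⟩ := hadj
    have h3 : (F l x).1 = some l1 := by rw [h1]; exact hq1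
    have h4 : (F l0 (q.2 t1)).1 = some l1 := by rw [himg q hq]; exact hq1
    obtain ⟨rfl, -, -⟩ := F_some hab h3
    obtain ⟨rfl, -, -⟩ := F_some hab h4
    rw [← h1, ← h2, F_at hab _ x ht1, F_at hab _ y ht1]
    exact h
  | none =>
    cases hq1' : q'.1 with
    | none => exact coord hab hadj hq1 hq1' t1
    | some l1 =>
      obtain ⟨l, x, y, h, h1, h2⟩ := hadj
      have h3 : (F l y).1 = some l1 := by rw [h2]; exact hq1'
      have h4 : (F l0 (q'.2 t1)).1 = some l1 := by rw [himg q' hq']; exact hq1'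
      obtain ⟨rfl, -, -⟩ := F_some hab h3
      obtain ⟨rfl, -, -⟩ := F_some hab h4
      rw [← h1, ← h2, F_at hab _ x ht1, F_at hab _ y ht1]
      exact h

end Step

/-- One step of the partite construction. -/
theorem step {N n : ℕ} (hn : 2 ≤ n) (κ : Type) [Finite κ] [Nonempty κ] (P : Sys N)
    (hP : P.Γ.CliqueFree (n + 1)) (a b : Fin N) (hab : a ≠ b) :
    ∃ Q : Sys N, Q.Γ.CliqueFree (n + 1) ∧ ∀ χ : Q.X → Q.X → κ, ∃ f : Emb P Q, ∃ c : κ,
      ∀ x y, P.π x = a → P.π y = b → P.Γ.Adj x y → χ (f.f x) (f.f y) = c := by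
  classical
  have := P.fin
  obtain ⟨ι, hι, hHJ⟩ := Line.exists_mono_in_high_dimension (E P a b) κ
  have ht0 : ∃ t : ι, True := by
    obtain ⟨l, -⟩ := hHJ (fun _ => Classical.arbitrary κ)
    obtain ⟨i, -⟩ := l.proper
    exact ⟨i, trivial⟩
  obtain ⟨t0, -⟩ := ht0
  have : Finite (Option (Line (E P a b) ι) × (ι → P.X)) := inferInstance
  refine ⟨⟨Option (Line (E P a b) ι) × (ι → P.X), inferInstance, G' hab,
    fun p => P.π (p.2 t0), ?_⟩, cliqueFree hab hn hP t0, ?_⟩
  · rintro p q ⟨l, x, y, h, rfl, rfl⟩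
    simp only [π_F hab]
    exact P.part x y h
  · intro χ
    obtain ⟨l, c, hc⟩ := hHJ (fun w => χ (none, fun t => (w t).1.1) (none, fun t => (w t).1.2))
    refine ⟨⟨F l, fun x y h => ⟨l, x, y, h, rfl, rfl⟩, fun x => π_F hab l x t0⟩, c, ?_⟩
    intro x y hx hy h
    have := hc ⟨(x, y), hx, hy, h⟩
    rw [← this]
    simp only
    congr 1
    · rw [F_a l hx]
      congr 1
      funext t
      rw [Line.coe_apply]
      cases l.idxFun t <;> simp
    · rw [F_b hab l hy]
      congr 1
      funext t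
      rw [Line.coe_apply]
      cases l.idxFun t <;> simp

/-- Iterating over a list of pairs of parts. -/
theorem steps {N n : ℕ} (hn : 2 ≤ n) (κ : Type) [Finite κ] [Nonempty κ]
    (L : List (Fin N × Fin N)) (hL : ∀ p ∈ L, p.1 ≠ p.2) :
    ∀ (P : Sys N), P.Γ.CliqueFree (n + 1) →
    ∃ Q : Sys N, Q.Γ.CliqueFree (n + 1) ∧ ∀ χ : Q.X → Q.X → κ, ∃ f : Emb P Q,
      ∀ p ∈ L, ∃ c : κ,
      ∀ x y, P.π x = p.1 → P.π y = p.2 → P.Γ.Adj x y → χ (f.f x) (f.f y) = c := by
  induction L with
  | nil =>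
    intro P hP
    exact ⟨P, hP, fun χ => ⟨⟨id, fun x y h => h, fun x => rfl⟩, by simp⟩⟩
  | cons p L ih =>
    intro P hP
    obtain ⟨Q1, hQ1, h1⟩ := step hn κ P hP p.1 p.2 (hL p (by simp))
    obtain ⟨Q2, hQ2, h2⟩ := ih (fun p hp => hL p (by simp [hp])) Q1 hQ1
    refine ⟨Q2, hQ2, fun χ => ?_⟩
    obtain ⟨g, hg⟩ := h2 χ
    obtain ⟨f, c, hf⟩ := h1 (fun x y => χ (g.f x) (g.f y))
    refine ⟨⟨fun x => g.f (f.f x), fun x y h => g.adj _ _ (f.adj _ _ h),
      fun x => (g.part _).trans (f.part x)⟩, ?_⟩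
    intro p' hp'
    rcases List.mem_cons.1 hp' with rfl | hp'
    · exact ⟨c, hf⟩
    · obtain ⟨c', hc'⟩ := hg p' hp'
      refine ⟨c', fun x y hx hy h => ?_⟩
      exact hc' _ _ ((f.part x).trans hx) ((f.part y).trans hy) (f.adj _ _ h)

/-- End-homogeneous sets. -/
lemma endHom (κ : Type) [Fintype κ] (m : ℕ) : ∃ M : ℕ, ∀ (N : ℕ) (c : Fin N → Fin N → κ)
    (S : Finset (Fin N)), M ≤ S.card → ∃ T ⊆ S, T.card = m ∧ ∃ d : Fin N → κ,
      ∀ i ∈ T, ∀ j ∈ T, i < j → c i j = d i := by
  classical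
  induction m with
  | zero =>
    refine ⟨0, fun N c S _ => ⟨∅, by simp, rfl, ?_⟩⟩
    by_cases h : Nonempty (Fin N)
    · obtain ⟨x⟩ := h
      exact ⟨fun _ => c x x, by simp⟩
    · exact ⟨fun x => absurd ⟨x⟩ h, by simp⟩
  | succ m ih =>
    obtain ⟨M, hM⟩ := ih
    refine ⟨Fintype.card κ * M + 1, fun N c S hS => ?_⟩
    have hne : S.Nonempty := by
      rw [← Finset.card_pos]; omega
    set x := S.min' hne with hx
    have hxS : x ∈ S := S.min'_mem hne
    have hcard : (S.erase x).card = S.card - 1 := Finset.card_erase_of_mem hxS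
    by_cases hM0 : M = 0
    · obtain ⟨T, hT, hTc, d, hd⟩ := hM N c ∅ (by simp [hM0])
      have hT0 : T = ∅ := Finset.subset_empty.1 hT
      have hm : m = 0 := by rw [← hTc, hT0]; rfl
      refine ⟨{x}, by simpa using hxS, by simp [hm], fun _ => c x x, ?_⟩
      intro i hi j hj hij
      simp only [Finset.mem_singleton] at hi hj
      subst hi
      exact absurd hij (by rw [hj]; exact lt_irrefl _)
    have hpig : ∃ y ∈ (Finset.univ : Finset κ),
        M ≤ ((S.erase x).filter (fun z => c x z = y)).card := by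
      have : Nonempty κ := ⟨c x x⟩
      apply Finset.exists_le_card_fiber_of_mul_le_card_of_maps_to
      · intro z _; exact Finset.mem_univ _
      · exact Finset.univ_nonempty
      · rw [Finset.card_univ, hcard]; omega
    obtain ⟨y, -, hy⟩ := hpig
    obtain ⟨T, hT, hTc, d, hd⟩ := hM N c _ hy
    have hxT : x ∉ T := fun h => by
      have := hT h
      simp at this
    refine ⟨insert x T, ?_, by rw [Finset.card_insert_of_notMem hxT, hTc],
      fun i => if i = x then y else d i, ?_⟩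
    · intro z hz
      rcases Finset.mem_insert.1 hz with rfl | hz
      · exact hxS
      · exact Finset.mem_of_mem_erase (Finset.mem_filter.1 (hT hz)).1
    · intro i hi j hj hij
      rcases Finset.mem_insert.1 hi with rfl | hi'
      · rcases Finset.mem_insert.1 hj with rfl | hj'
        · exact absurd hij (lt_irrefl _)
        · simp [(Finset.mem_filter.1 (hT hj')).2]
      · have hix : i ≠ x := fun h => hxT (h ▸ hi')
        rcases Finset.mem_insert.1 hj with rfl | hj'
        · have hiS : i ∈ S := Finset.mem_of_mem_erase (Finset.mem_filter.1 (hT hi')).1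
          exact absurd hij (not_lt.2 (S.min'_le i hiS))
        · simp only [hix, if_false]
          exact hd i hi' j hj' hij

/-- Ramsey's theorem for pairs. -/
lemma ramseyPairs (κ : Type) [Finite κ] (n : ℕ) : ∃ N : ℕ, ∀ (c : Fin N → Fin N → κ),
    ∃ S : Fin n ↪o Fin N, ∃ y : κ ⊕ Unit, ∀ i j, i < j → (Sum.inl (c (S i) (S j)) : κ ⊕ Unit) = y := by
  classical
  have := Fintype.ofFinite κ
  obtain ⟨M, hM⟩ := endHom κ (Fintype.card κ * n + 1)
  refine ⟨M, fun c => ?_⟩
  obtain ⟨T, -, hTc, d, hd⟩ := hM M c Finset.univ (by simp)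
  have hTne : T.Nonempty := by rw [← Finset.card_pos]; omega
  obtain ⟨x0, hx0⟩ := hTne
  have : Nonempty κ := ⟨c x0 x0⟩
  have hpig : ∃ y ∈ (Finset.univ : Finset κ), n ≤ (T.filter (fun z => d z = y)).card := by
    apply Finset.exists_le_card_fiber_of_mul_le_card_of_maps_to
    · intro z _; exact Finset.mem_univ _
    · exact Finset.univ_nonempty
    · rw [Finset.card_univ, hTc]; omega
  obtain ⟨y, -, hy⟩ := hpig
  obtain ⟨U, hU, hUc⟩ := Finset.exists_subset_card_eq hy
  refine ⟨U.orderEmbOfFin hUc, Sum.inl y, fun i j hij => ?_⟩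
  congr 1
  have hi := hU (U.orderEmbOfFin_mem hUc i)
  have hj := hU (U.orderEmbOfFin_mem hUc j)
  rw [Finset.mem_filter] at hi hj
  rw [hd _ hi.1 _ hj.1 ((U.orderEmbOfFin hUc).lt_iff_lt.2 hij), hi.2]

/-- The starting system: disjoint `n`-cliques, one over each `n`-set of parts. -/
def P0 (n N : ℕ) : Sys N where
  X := (Fin n ↪o Fin N) × Fin n
  fin := by
    have : Finite (Fin n ↪o Fin N) := Finite.of_injective (fun f => (f : Fin n → Fin N))
      (fun f g h => by ext x; exact congrArg Fin.val (congrFun h x))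
    infer_instance
  Γ :=
    { Adj := fun p q => p.1 = q.1 ∧ p.2 ≠ q.2
      symm := ⟨fun p q h => ⟨h.1.symm, h.2.symm⟩⟩
      loopless := ⟨fun p h => h.2 rfl⟩ }
  π p := p.1 p.2
  part := by
    rintro ⟨S, i⟩ ⟨T, j⟩ ⟨h1, h2⟩ h
    simp only at h1 h2 h
    subst h1
    exact h2 (S.injective h)

/-- Second coordinate. -/
def snd0 (n N : ℕ) : (P0 n N).X → Fin n := fun p => Prod.snd (α := Fin n ↪o Fin N) p

lemma P0_cliqueFree (n N : ℕ) : (P0 n N).Γ.CliqueFree (n + 1) := by
  classical
  intro s hs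
  have hcl := hs.isClique
  have hcard := hs.card_eq
  have hinj : Set.InjOn (snd0 n N) (s : Set (P0 n N).X) := by
    intro p hp q hq h
    by_contra hne
    exact (hcl hp hq hne).2 h
  have := Finset.card_le_card_of_injOn (s := s) (t := (Finset.univ : Finset (Fin n)))
    (snd0 n N) (fun _ _ => Finset.mem_univ _) hinj
  rw [Finset.card_univ, Fintype.card_fin] at this
  omega

/-- **Folkman / Nešetřil–Rödl**, edge version, for ordered pairs. -/
theorem folkman (n : ℕ) (hn : 2 ≤ n) (κ : Type) [Finite κ] [Nonempty κ] :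
    ∃ (X : Type) (_ : Finite X) (Γ : SimpleGraph X), Γ.CliqueFree (n + 1) ∧
      ∀ χ : X → X → κ, ∃ (e : Fin n → X) (c : κ),
        ∀ i j, i < j → Γ.Adj (e i) (e j) ∧ χ (e i) (e j) = c := by
  classical
  obtain ⟨N, hN⟩ := ramseyPairs κ n
  obtain ⟨Q, hQ, h⟩ := steps hn κ
    ((Finset.univ.filter (fun p : Fin N × Fin N => p.1 ≠ p.2)).toList) (by simp)
    (P0 n N) (P0_cliqueFree n N)
  refine ⟨Q.X, Q.fin, Q.Γ, hQ, fun χ => ?_⟩
  obtain ⟨f, hf⟩ := h χ
  have hf' : ∀ a b : Fin N, ∃ c : κ, a ≠ b → ∀ x y, (P0 n N).π x = a → (P0 n N).π y = b →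
      (P0 n N).Γ.Adj x y → χ (f.f x) (f.f y) = c := by
    intro a b
    by_cases hab : a = b
    · exact ⟨Classical.arbitrary κ, fun h => absurd hab h⟩
    · obtain ⟨c, hc⟩ := hf (a, b) (by simpa using hab)
      exact ⟨c, fun _ => hc⟩
  choose c hc using hf'
  obtain ⟨S, y, hS⟩ := hN c
  have h0 : (0 : ℕ) < n := by omega
  have h1 : (1 : ℕ) < n := by omega
  have hy := hS ⟨0, h0⟩ ⟨1, h1⟩ (by simp [Fin.lt_def])
  refine ⟨fun i => f.f (S, i), c (S ⟨0, h0⟩) (S ⟨1, h1⟩), fun i j hij => ?_⟩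
  have hadj : (P0 n N).Γ.Adj (S, i) (S, j) := ⟨rfl, hij.ne⟩
  refine ⟨f.adj _ _ hadj, ?_⟩
  have h2 := hS i j hij
  rw [← hy] at h2
  have h3 := Sum.inl.inj h2
  rw [← h3]
  exact hc (S i) (S j) (fun h => hij.ne (S.injective h)) (S, i) (S, j) rfl rfl hadj

end H267R3.Folk
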