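import Mathlib

set_option autoImplicit false

namespace Pool.Agent.H267R3

/-- Mycielski graph of `G`. -/
def mycAdj {V : Type} (G : SimpleGraph V) : (V ⊕ V ⊕ Unit) → (V ⊕ V ⊕ Unit) → Prop
  | .inl x, .inl y => G.Adj x y
  | .inl x, .inr (.inl y) => G.Adj x y
  | .inr (.inl x), .inl y => G.Adj x y
  | .inr (.inl _), .inr (.inr _) => True
  | .inr (.inr _), .inr (.inl _) => True
  | _, _ => False

def myc {V : Type} (G : SimpleGraph V) : SimpleGraph (V ⊕ V ⊕ Unit) where
  Adj := mycAdj G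
  symm := ⟨by
    rintro (x | x | x) (y | y | y) h <;> simp only [mycAdj] at h ⊢ <;> exact SimpleGraph.Adj.symm h⟩
  loopless := ⟨by
    rintro (x | x | x) h <;> simp [mycAdj] at h⟩

structure Good {V : Type} (G : SimpleGraph V) (k : ℕ) : Prop where
  tf : ∀ x y z, G.Adj x y → G.Adj y z → G.Adj x z → False
  nc : ∀ c : V → Fin k, ∃ x y, G.Adj x y ∧ c x = c y
  ni : ∀ x, ∃ y, G.Adj x y
  ne : Nonempty V

theorem good_base : Good (⊤ : SimpleGraph Bool) 1 where
  tf := by decide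
  nc := fun c => ⟨true, false, by simp, Subsingleton.elim _ _⟩
  ni := fun x => ⟨!x, by cases x <;> simp⟩
  ne := ⟨true⟩

theorem Good.myc {V : Type} {G : SimpleGraph V} {k : ℕ} (h : Good G k) :
    Good (myc G) (k + 1) where
  tf := by
    rintro (x | x | x) (y | y | y) (z | z | z) h1 h2 h3 <;>
      simp only [H267R3.myc, mycAdj] at h1 h2 h3 <;> exact h.tf _ _ _ h1 h2 h3
  nc := by
    intro c
    by_contra hcon
    push Not at hcon
    set κ := c (.inr (.inr ())) with hκ
    -- new colouring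
    have key : ∀ x : V, ∃ j : Fin k,
        κ.succAbove j = (if c (.inl x) = κ then c (.inr (.inl x)) else c (.inl x)) := by
      intro x
      apply Fin.exists_succAbove_eq
      split_ifs with hx
      · exact hcon (.inr (.inl x)) (.inr (.inr ())) (by simp [H267R3.myc, mycAdj])
      · exact hx
    choose d hd using key
    obtain ⟨x, y, hxy, hc⟩ := h.nc d
    have h1 := hd x
    have h2 := hd y
    rw [hc, h2] at h1
    split_ifs at h1 with hy hx hx
    · exact hcon (.inl x) (.inl y) (by simpa [H267R3.myc, mycAdj] using hxy) (hx.trans hy.symm)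
    · exact hcon (.inl x) (.inr (.inl y)) (by simpa [H267R3.myc, mycAdj] using hxy) h1.symm
    · exact hcon (.inr (.inl x)) (.inl y) (by simpa [H267R3.myc, mycAdj] using hxy) h1.symm
    · exact hcon (.inl x) (.inl y) (by simpa [H267R3.myc, mycAdj] using hxy) h1.symm
  ni := by
    rintro (x | x | x)
    · obtain ⟨y, hy⟩ := h.ni x
      exact ⟨.inl y, by simpa [H267R3.myc, mycAdj] using hy⟩
    · exact ⟨.inr (.inr ()), by simp [H267R3.myc, mycAdj]⟩
    · obtain ⟨x⟩ := h.ne
      exact ⟨.inr (.inl x), by simp [H267R3.myc, mycAdj]⟩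
  ne := ⟨.inr (.inr ())⟩

theorem myc_conn {V : Type} {G : SimpleGraph V} {k : ℕ} (h : Good G k) {α : Type}
    (g : (V ⊕ V ⊕ Unit) → α) (hg : ∀ u v, (myc G).Adj u v → g u = g v) (u v) : g u = g v := by
  have h1 : ∀ x : V, g (.inr (.inl x)) = g (.inr (.inr ())) := fun x =>
    hg _ _ (by simp [myc, mycAdj])
  have h2 : ∀ u, g u = g (.inr (.inr ())) := by
    rintro (x | x | x)
    · obtain ⟨y, hy⟩ := h.ni x
      rw [← h1 y]
      exact hg _ _ (by simpa [myc, mycAdj] using hy)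
    · exact h1 x
    · rfl
  rw [h2 u, h2 v]

theorem myc_two {V : Type} {G : SimpleGraph V} {k : ℕ} (h : Good G k)
    (u : V ⊕ V ⊕ Unit) : ∃ v w, v ≠ w ∧ (myc G).Adj u v ∧ (myc G).Adj u w := by
  rcases u with (x | x | x)
  · obtain ⟨y, hy⟩ := h.ni x
    exact ⟨.inl y, .inr (.inl y), by simp, by simpa [myc, mycAdj] using hy,
      by simpa [myc, mycAdj] using hy⟩
  · obtain ⟨y, hy⟩ := h.ni x
    exact ⟨.inl y, .inr (.inr ()), by simp, by simpa [myc, mycAdj] using hy,
      by simp [myc, mycAdj]⟩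
  · obtain ⟨x⟩ := h.ne
    obtain ⟨y, hy⟩ := h.ni x
    exact ⟨.inr (.inl x), .inr (.inl y), by simpa using hy.ne, by simp [myc, mycAdj],
      by simp [myc, mycAdj]⟩

/-- There is a finite connected triangle-free graph with minimum degree at least two and
chromatic number at least five. -/
theorem exists_graph : ∃ (a : ℕ) (K : SimpleGraph (Fin a)), 3 ≤ a ∧
    (∀ x y z, K.Adj x y → K.Adj y z → K.Adj x z → False) ∧
    (∀ c : Fin a → Fin 4, ∃ x y, K.Adj x y ∧ c x = c y) ∧
    (∀ g : Fin a → Fin 4, (∀ u v, K.Adj u v → g u = g v) → ∀ u v, g u = g v) ∧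
    (∀ u, ∃ v w, v ≠ w ∧ K.Adj u v ∧ K.Adj u w) := by
  have h2 := good_base.myc.myc
  have h3 := h2.myc
  set M2 := myc (myc (⊤ : SimpleGraph Bool)) with hM2
  set M := myc M2 with hM
  let W := (((Bool ⊕ Bool ⊕ Unit) ⊕ (Bool ⊕ Bool ⊕ Unit) ⊕ Unit) ⊕
    ((Bool ⊕ Bool ⊕ Unit) ⊕ (Bool ⊕ Bool ⊕ Unit) ⊕ Unit) ⊕ Unit)
  let e : W ≃ Fin (Fintype.card W) := Fintype.equivFin W
  refine ⟨Fintype.card W, M.comap e.symm, by decide, ?_, ?_, ?_, ?_⟩
  · intro x y z h h' h''
    exact h3.tf _ _ _ h h' h''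
  · intro c
    obtain ⟨x, y, hxy, hc⟩ := h3.nc (c ∘ e)
    exact ⟨e x, e y, by simpa [SimpleGraph.comap_adj] using hxy, hc⟩
  · intro g hg u v
    have := myc_conn h2 (g ∘ e) (fun u v huv => hg _ _ (by simpa [SimpleGraph.comap_adj] using huv))
      (e.symm u) (e.symm v)
    simpa using this
  · intro u
    obtain ⟨v, w, hvw, h, h'⟩ := myc_two h2 (e.symm u)
    exact ⟨e v, e w, by simpa using hvw, by simpa [SimpleGraph.comap_adj] using h,
      by simpa [SimpleGraph.comap_adj] using h'⟩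

end Pool.Agent.H267R3
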