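import Pool.Agent.H267R3.Folk

/-!
# Finding a monochromatic clique in a canonically coloured blow-up
-/

namespace H267R3.Pattern

variable {X : Type} {q n : ℕ}

/-- No monochromatic clique of size `n + 1` in the graph `R`. -/
def NoClique {V : Type} (R : SimpleGraph V) (m : ℕ) : Prop :=
  ∀ v : Fin m → V, ¬ ∀ a b, a < b → R.Adj (v a) (v b)

section Core

variable (hn : 2 ≤ n) (e : Fin n → X) (R B : SimpleGraph (X × Fin q)) (β : Fin q → Fin q → Prop)
  (hR : ∀ s t, s < t → ∀ i j, β i j → R.Adj (e s, i) (e t, j))
  (hB : ∀ s t, s < t → ∀ i j, ¬ β i j → B.Adj (e s, i) (e t, j))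
  (hin : ∀ s i j, i ≠ j → R.Adj (e s, i) (e s, j) ∨ B.Adj (e s, i) (e s, j))
  (P : Finset (Fin q)) (hP : ∀ i ∈ P, ¬ β i i)
  (hRf : NoClique R (n + 1)) (hBf : NoClique B (n + 1))

include hn hB hin hP hBf in
/-- An arc forces red inside every component. -/
lemma arc_red {i j : Fin q} (hi : i ∈ P) (hj : j ∈ P) (hij : i ≠ j) (h : ¬ β i j) (s : Fin n) :
    R.Adj (e s, i) (e s, j) := by
  rcases hin s i j hij with h1 | h1
  · exact h1
  · exfalso
    refine hBf (fun a => if h : a.val ≤ s.val then (e ⟨a.val, lt_of_le_of_lt h s.2⟩, i)
      else (e ⟨a.val - 1, by have := a.2; omega⟩, j)) ?_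
    intro a b hab
    have hab' : a.val < b.val := hab
    by_cases ha : a.val ≤ s.val
    · by_cases hb : b.val ≤ s.val
      · simp only [ha, hb, dif_pos]
        exact hB _ _ (Fin.mk_lt_mk.2 hab') _ _ (hP i hi)
      · simp only [ha, hb, dif_pos, dif_neg, not_false_eq_true]
        by_cases hc : a.val < b.val - 1
        · exact hB _ _ (by simpa [Fin.lt_def] using hc) _ _ h
        · have h2 : (⟨a.val, lt_of_le_of_lt ha s.2⟩ : Fin n) = s := by
            apply Fin.ext; simp only; omega
          have h3 : (⟨b.val - 1, by have := b.2; omega⟩ : Fin n) = s := by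
            apply Fin.ext; simp only; omega
          rw [h2, h3]
          exact h1
    · have hb : ¬ b.val ≤ s.val := by omega
      simp only [ha, hb, dif_neg, not_false_eq_true]
      exact hB _ _ (by simp only [Fin.lt_def]; omega) _ _ (hP j hj)

open Classical in
/-- Out-neighbourhood (blue towards higher components). -/
noncomputable def O (β : Fin q → Fin q → Prop) (P : Finset (Fin q)) (l : Fin q) :
    Finset (Fin q) :=
  insert l (P.filter (fun i => ¬ β l i))

include hn hB hin hP hRf hBf in
lemma card_O {l : Fin q} (hl : l ∈ P) : (O β P l).card ≤ n := by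
  classical
  by_contra hc
  push Not at hc
  have key : ∀ i ∈ O β P l, ∀ j ∈ O β P l, i ≠ j →
      R.Adj (e ⟨n - 1, by omega⟩, i) (e ⟨n - 1, by omega⟩, j) := by
    intro i hi j hj hij
    unfold O at hi hj
    rw [Finset.mem_insert, Finset.mem_filter] at hi hj
    rcases hi with rfl | ⟨hiP, hi⟩
    · rcases hj with rfl | ⟨hjP, hj⟩
      · exact absurd rfl hij
      · exact arc_red hn e R B β hB hin P hP hBf hl hjP hij hj _
    · rcases hj with rfl | ⟨hjP, hj⟩
      · exact (arc_red hn e R B β hB hin P hP hBf hl hiP hij.symm hi _).symm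
      · rcases hin ⟨n - 1, by omega⟩ i j hij with h1 | h1
        · exact h1
        · exfalso
          refine hBf (fun a => if h : a.val < n - 1 then (e ⟨a.val, by omega⟩, l)
            else if a.val = n - 1 then (e ⟨n - 1, by omega⟩, i)
            else (e ⟨n - 1, by omega⟩, j)) ?_
          intro a b hab
          have hab' : a.val < b.val := hab
          have hb2 := b.2
          by_cases ha : a.val < n - 1
          · by_cases hb : b.val < n - 1
            · simp only [ha, hb, dif_pos]
              exact hB _ _ (Fin.mk_lt_mk.2 hab') _ _ (hP l hl)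
            · by_cases hb' : b.val = n - 1
              · simp only [ha, hb, hb', dif_pos, if_true, lt_irrefl, dif_neg, not_false_eq_true]
                exact hB _ _ (by simpa [Fin.lt_def] using ha) _ _ hi
              · simp only [ha, hb, hb', dif_pos, if_false, dif_neg, not_false_eq_true]
                exact hB _ _ (by simpa [Fin.lt_def] using ha) _ _ hj
          · have ha' : a.val = n - 1 := by omega
            have hb : ¬ b.val < n - 1 := by omega
            have hb' : b.val ≠ n - 1 := by omega
            simp only [ha', hb, hb', lt_irrefl, dif_neg, if_true, if_false, not_false_eq_true]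
            exact h1
  obtain ⟨T, hT, hTc⟩ := Finset.exists_subset_card_eq (s := O β P l) (n := n + 1) (by omega)
  refine hRf (fun a => (e ⟨n - 1, by omega⟩, T.orderEmbOfFin hTc a)) ?_
  intro a b hab
  exact key _ (hT (T.orderEmbOfFin_mem hTc a)) _ (hT (T.orderEmbOfFin_mem hTc b))
    (fun h => hab.ne ((T.orderEmbOfFin hTc).injective h))

include hn hB hin hP hRf hBf in
/-- Greedy choice of a sequence without forward arcs. -/
lemma exists_seq (hPc : n ^ 2 < P.card) (m : ℕ) (hm : m ≤ n + 1) :
    ∃ w : Fin m → Fin q, (∀ a, w a ∈ P) ∧ ∀ a b, a < b → w a ≠ w b ∧ β (w a) (w b) := by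
  classical
  induction m with
  | zero => exact ⟨Fin.elim0, fun a => a.elim0, fun a => a.elim0⟩
  | succ m ih =>
    obtain ⟨w, hw, hw2⟩ := ih (by omega)
    have hcard : ((Finset.univ : Finset (Fin m)).biUnion (fun a => O β P (w a))).card ≤ n ^ 2 := by
      calc _ ≤ (Finset.univ : Finset (Fin m)).card * n :=
            Finset.card_biUnion_le_card_mul _ _ _ (fun a _ =>
              card_O hn e R B β hB hin P hP hRf hBf (hw a))
        _ = m * n := by rw [Finset.card_univ, Fintype.card_fin]
        _ ≤ n * n := Nat.mul_le_mul_right _ (by omega)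
        _ = n ^ 2 := (sq n).symm
    obtain ⟨v, hvP, hv⟩ := Finset.exists_mem_notMem_of_card_lt_card (lt_of_le_of_lt hcard hPc)
    have hv' : ∀ a, w a ≠ v ∧ β (w a) v := by
      intro a
      rw [Finset.mem_biUnion] at hv
      push Not at hv
      have h1 := hv a (Finset.mem_univ _)
      unfold O at h1
      rw [Finset.mem_insert, Finset.mem_filter] at h1
      push Not at h1
      exact ⟨fun h => h1.1 h.symm, h1.2 hvP⟩
    refine ⟨Fin.snoc w v, ?_, ?_⟩
    · intro a
      refine Fin.lastCases ?_ (fun a => ?_) a
      · simpa using hvP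
      · simpa using hw a
    · intro a b
      refine Fin.lastCases ?_ (fun b => ?_) b
      · refine Fin.lastCases ?_ (fun a => ?_) a
        · intro h; exact absurd h (lt_irrefl _)
        · intro _; simpa using hv' a
      · refine Fin.lastCases ?_ (fun a => ?_) a
        · intro h; exact absurd h (not_lt.2 (Fin.le_last _))
        · intro h
          simpa using hw2 a b (by simpa using h)

include hn hR hB hin hP hRf hBf in
theorem core (hPc : n ^ 2 < P.card) : False := by
  classical
  obtain ⟨w, hw, hw2⟩ := exists_seq hn e R B β hB hin P hP hRf hBf hPc (n + 1) le_rfl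
  by_cases harc : ∃ s t : Fin (n + 1), s < t ∧ ¬ β (w t) (w s)
  · -- minimal backward arc
    obtain ⟨d, hd⟩ : ∃ d : ℕ, ∃ s t : Fin (n + 1), s < t ∧ ¬ β (w t) (w s) ∧ t.val - s.val = d := by
      obtain ⟨s, t, h1, h2⟩ := harc
      exact ⟨_, s, t, h1, h2, rfl⟩
    have hex : ∃ d : ℕ, ∃ s t : Fin (n + 1), s < t ∧ ¬ β (w t) (w s) ∧ t.val - s.val = d := ⟨d, hd⟩
    obtain ⟨s, t, hst, hβ, hdiff⟩ := Nat.find_spec hex
    have hmin : ∀ r : Fin (n + 1), s < r → r < t → β (w t) (w r) := by
      intro r hsr hrt
      by_contra hcon
      have h1 : s.val < r.val := hsr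
      have h2 : r.val < t.val := hrt
      have := Nat.find_min' hex ⟨r, t, hrt, hcon, rfl⟩
      omega
    have hst' : s.val < t.val := hst
    have ht2 := t.2
    have hsn : s.val < n := by omega
    have hred : R.Adj (e ⟨s.val, hsn⟩, w s) (e ⟨s.val, hsn⟩, w t) :=
      (arc_red hn e R B β hB hin P hP hBf (hw t) (hw s) (hw2 s t hst).1.symm hβ _).symm
    -- component assignment
    let c : Fin (n + 1) → ℕ := fun r => if r.val < t.val then r.val else
      if r.val = t.val then s.val else r.val - 1
    have hc : ∀ r, c r < n := by
      intro r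
      have := r.2
      simp only [c]
      split_ifs <;> omega
    have hcl : ∀ r, r.val < t.val → c r = r.val := by
      intro r h; simp only [c]; rw [if_pos h]
    have hct : ∀ r, r.val = t.val → c r = s.val := by
      intro r h; simp only [c]; rw [if_neg (by omega), if_pos h]
    have hcg : ∀ r, t.val < r.val → c r = r.val - 1 := by
      intro r h; simp only [c]; rw [if_neg (by omega), if_neg (by omega)]
    refine hRf (fun r => (e ⟨c r, hc r⟩, w r)) ?_
    intro r r' hrr
    have hrr' : r.val < r'.val := hrr
    rcases lt_trichotomy r'.val t.val with h | h | h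
    · apply hR
      · simp only [Fin.lt_def, hcl r (by omega), hcl r' h]; omega
      · exact (hw2 r r' hrr).2
    · have hr't : r' = t := Fin.ext h
      subst hr't
      rcases lt_trichotomy r.val s.val with h1 | h1 | h1
      · apply hR
        · simp only [Fin.lt_def, hcl r (by omega), hct r' rfl]; omega
        · exact (hw2 r r' hrr).2
      · have hrs : r = s := Fin.ext h1
        subst hrs
        have e1 : (⟨c r, hc r⟩ : Fin n) = ⟨r.val, hsn⟩ := Fin.ext (hcl r hrr')
        have e2 : (⟨c r', hc r'⟩ : Fin n) = ⟨r.val, hsn⟩ := Fin.ext (hct r' rfl)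
        simp only [e1, e2]
        exact hred
      · have : R.Adj (e ⟨c r', hc r'⟩, w r') (e ⟨c r, hc r⟩, w r) := by
          apply hR
          · simp only [Fin.lt_def, hcl r (by omega), hct r' rfl]; omega
          · exact hmin r h1 hrr'
        exact this.symm
    · rcases lt_trichotomy r.val t.val with h1 | h1 | h1
      · apply hR
        · simp only [Fin.lt_def, hcl r h1, hcg r' h]; omega
        · exact (hw2 r r' hrr).2
      · apply hR
        · simp only [Fin.lt_def, hct r h1, hcg r' h]; omega
        · exact (hw2 r r' hrr).2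
      · apply hR
        · simp only [Fin.lt_def, hcg r h1, hcg r' h]; omega
        · exact (hw2 r r' hrr).2
  · push Not at harc
    have hall : ∀ a b, a ≠ b → β (w a) (w b) := by
      intro a b hab
      rcases lt_or_gt_of_ne hab with h | h
      · exact (hw2 a b h).2
      · exact harc b a h
    by_cases hblue : ∀ a b, a < b → B.Adj (e ⟨0, by omega⟩, w a) (e ⟨0, by omega⟩, w b)
    · exact hBf (fun a => (e ⟨0, by omega⟩, w a)) hblue
    · push Not at hblue
      obtain ⟨a, b, hab, hnb⟩ := hblue
      have hred : R.Adj (e ⟨0, by omega⟩, w a) (e ⟨0, by omega⟩, w b) := by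
        rcases hin ⟨0, by omega⟩ (w a) (w b) (hw2 a b hab).1 with h | h
        · exact h
        · exact absurd h hnb
      have hab' : a.val < b.val := hab
      have hb2 := b.2
      let c : Fin (n + 1) → ℕ := fun r =>
        if r.val < a.val then r.val + 1 else if r.val = a.val then 0 else
        if r.val < b.val then r.val else if r.val = b.val then 0 else r.val - 1
      have hc : ∀ r, c r < n := by
        intro r
        have := r.2
        simp only [c]
        split_ifs <;> omega
      have hceq : ∀ r r' : Fin (n + 1), r.val < r'.val → c r = c r' →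
          r.val = a.val ∧ r'.val = b.val := by
        intro r r' h h'
        simp only [c] at h'
        split_ifs at h' <;> omega
      refine hRf (fun r => (e ⟨c r, hc r⟩, w r)) ?_
      intro r r' hrr
      have hrr' : r.val < r'.val := hrr
      rcases lt_trichotomy (c r) (c r') with h | h | h
      · apply hR
        · simpa [Fin.lt_def] using h
        · exact hall _ _ hrr.ne
      · obtain ⟨h1, h2⟩ := hceq r r' hrr' h
        have e1 : r = a := Fin.ext h1
        have e2 : r' = b := Fin.ext h2
        subst e1 e2
        have e3 : (⟨c r, hc r⟩ : Fin n) = ⟨0, by omega⟩ := by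
          apply Fin.ext; simp [c]
        have e4 : (⟨c r', hc r'⟩ : Fin n) = ⟨0, by omega⟩ := by
          rw [← e3]; apply Fin.ext; exact h.symm
        simp only [e3, e4]
        exact hred
      · have : R.Adj (e ⟨c r', hc r'⟩, w r') (e ⟨c r, hc r⟩, w r) := by
          apply hR
          · simpa [Fin.lt_def] using h
          · exact hall _ _ hrr.ne'
        exact this.symm

end Core

end H267R3.Pattern
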