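import Mathlib

set_option autoImplicit false

namespace Pool.Agent.H267R3

/-- Disjoint union of `K` and one edge. -/
def plusEdgeAdj {a : ℕ} (K : SimpleGraph (Fin a)) : (Fin a ⊕ Bool) → (Fin a ⊕ Bool) → Prop
  | .inl x, .inl y => K.Adj x y
  | .inr p, .inr q => p ≠ q
  | _, _ => False

def plusEdge {a : ℕ} (K : SimpleGraph (Fin a)) : SimpleGraph (Fin a ⊕ Bool) where
  Adj := plusEdgeAdj K
  symm := ⟨by
    rintro (x | x) (y | y) h <;> simp only [plusEdgeAdj] at h ⊢
    · exact h.symm
    · exact h.symm⟩
  loopless := ⟨by
    rintro (x | x) h <;> simp [plusEdgeAdj] at h⟩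

def Ram {a m : ℕ} (K : SimpleGraph (Fin a)) (G : SimpleGraph (Fin m)) : Prop :=
  ∀ c : Fin m → Fin m → Bool, (∀ x y : Fin m, c x y = c y x) →
    ∃ b : Bool, ∃ f : (Fin a ⊕ Bool) → Fin m, Function.Injective f ∧
      ∀ u v, (plusEdge K).Adj u v → G.Adj (f u) (f v) ∧ c (f u) (f v) = b

theorem core {a m : ℕ} (K : SimpleGraph (Fin a)) (ha : 3 ≤ a)
    (nc : ∀ c : Fin a → Fin 4, ∃ x y, K.Adj x y ∧ c x = c y)
    (conn : ∀ g : Fin a → Fin 4, (∀ u v, K.Adj u v → g u = g v) → ∀ u v, g u = g v)
    (two : ∀ u, ∃ v w, v ≠ w ∧ K.Adj u v ∧ K.Adj u w)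
    (G : SimpleGraph (Fin m)) (hR : Ram K G) (hmin : ∀ G' < G, ¬ Ram K G')
    (v u : Fin m) (hv : ∀ w, G.Adj v w ↔ w = u) : False := by
  classical
  have hvu : G.Adj v u := (hv u).2 rfl
  have hne : v ≠ u := hvu.ne
  set G' := G.deleteEdges {s(v, u)} with hG'
  have hadj : ∀ x y, G'.Adj x y ↔ G.Adj x y ∧ s(x, y) ≠ s(v, u) := by
    intro x y
    simp [hG', SimpleGraph.deleteEdges_adj]
  have hlt : G' < G := by
    refine lt_of_le_of_ne (SimpleGraph.deleteEdges_le _) ?_
    intro h
    have : G'.Adj v u := by rw [h]; exact hvu
    exact ((hadj _ _).1 this).2 rfl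
  have hnR := hmin G' hlt
  unfold Ram at hnR
  push Not at hnR
  obtain ⟨c0, hc0, hbad⟩ := hnR
  -- copies of K avoid v
  have avoid : ∀ g : Fin a → Fin m, Function.Injective g →
      (∀ x y, K.Adj x y → G.Adj (g x) (g y)) → ∀ x, g x ≠ v := by
    intro g hg hK x hx
    obtain ⟨y, z, hyz, h1, h2⟩ := two x
    have e1 := (hv (g y)).1 (hx ▸ hK x y h1)
    have e2 := (hv (g z)).1 (hx ▸ hK x z h2)
    exact hyz (hg (e1.trans e2.symm))
  -- a coloured copy of K for each colour
  have copy : ∀ b : Bool, ∃ g : Fin a → Fin m, Function.Injective g ∧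
      (∀ x y, K.Adj x y → G'.Adj (g x) (g y) ∧ c0 (g x) (g y) = b) := by
    intro b
    obtain ⟨b', f, hf, hH⟩ := hR (fun x y => if s(x, y) = s(v, u) then b else c0 x y) (by
      intro x y
      simp only [Sym2.eq_swap (a := x) (b := y), hc0 x y])
    have hKf : ∀ x, f (.inl x) ≠ v := by
      apply avoid (fun x => f (.inl x))
      · intro x y hxy
        have := hf hxy
        simpa using this
      · intro x y hxy
        exact (hH (.inl x) (.inl y) hxy).1
    have hKs : ∀ x y, s(f (.inl x), f (.inl y)) ≠ s(v, u) := by
      intro x y h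
      have : v ∈ s(f (.inl x), f (.inl y)) := by rw [h]; simp
      rcases Sym2.mem_iff.1 this with h1 | h1
      · exact hKf x h1.symm
      · exact hKf y h1.symm
    have hb : b' = b := by
      by_contra hbb
      obtain ⟨p, q, hpq, hcon⟩ := hbad b' f hf
      have h1 := hH p q hpq
      by_cases hs : s(f p, f q) = s(v, u)
      · rw [if_pos hs] at h1
        exact hbb h1.2.symm
      · rw [if_neg hs] at h1
        exact hcon ((hadj _ _).2 ⟨h1.1, hs⟩) h1.2
    refine ⟨fun x => f (.inl x), ?_, ?_⟩
    · intro x y hxy
      have := hf hxy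
      simpa using this
    · intro x y hxy
      have h1 := hH (.inl x) (.inl y) hxy
      rw [if_neg (hKs x y)] at h1
      exact ⟨(hadj _ _).2 ⟨h1.1, hKs x y⟩, h1.2.trans hb⟩
  -- edges of G' outside of a coloured copy have the other colour
  have outside : ∀ (b : Bool) (g : Fin a → Fin m), Function.Injective g →
      (∀ x y, K.Adj x y → G'.Adj (g x) (g y) ∧ c0 (g x) (g y) = b) →
      ∀ x y, x ∉ Set.range g → y ∉ Set.range g → G'.Adj x y → c0 x y ≠ b := by
    intro b g hg hK x y hx hy hxy hc
    obtain ⟨p, q, hpq, hcon⟩ := hbad b (Sum.elim g (fun t => if t then x else y)) (by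
      rintro (s | s) (t | t) hst
      · simp only [Sum.elim_inl] at hst
        rw [hg hst]
      · exfalso
        cases t
        · exact hy ⟨s, by simpa using hst⟩
        · exact hx ⟨s, by simpa using hst⟩
      · exfalso
        cases s
        · exact hy ⟨t, by simpa using hst.symm⟩
        · exact hx ⟨t, by simpa using hst.symm⟩
      · cases s <;> cases t
        · rfl
        · exfalso
          simp only [Sum.elim_inr] at hst
          exact hxy.ne (by simpa using hst.symm)
        · exfalso
          simp only [Sum.elim_inr] at hst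
          exact hxy.ne (by simpa using hst)
        · rfl)
    rcases p with (p | p) <;> rcases q with (q | q)
    · have := hK p q hpq
      exact hcon this.1 this.2
    · exact hpq
    · exact hpq
    · have hpq' : p ≠ q := hpq
      cases p <;> cases q
      · exact hpq' rfl
      · apply hcon
        · simpa using hxy.symm
        · simpa [hc0 y x] using hc
      · apply hcon
        · simpa using hxy
        · simpa using hc
      · exact hpq' rfl
  obtain ⟨A, hA, hAK⟩ := copy true
  obtain ⟨B, hB, hBK⟩ := copy false
  have hind : ∀ x y, x ∉ Set.range A → y ∉ Set.range A → x ∉ Set.range B →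
      y ∉ Set.range B → ¬ G'.Adj x y := by
    intro x y h1 h2 h3 h4 hxy
    have e1 := outside true A hA hAK x y h1 h2 hxy
    have e2 := outside false B hB hBK x y h3 h4 hxy
    cases h : c0 x y
    · exact e2 h
    · exact e1 h
  have a0 : 0 < a := by omega
  set v0 : Fin a := ⟨0, a0⟩ with hv0
  let part : Fin m → Fin 4 := fun x =>
    if x = A v0 ∨ x = B v0 then 2 else if x ∈ Set.range A then 0 else
      if x ∈ Set.range B then 1 else 3
  obtain ⟨b, f, hf, hH⟩ := hR (fun x y => decide (part x = part y)) (by
    intro x y
    simp [eq_comm])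
  let g : Fin a → Fin m := fun x => f (.inl x)
  have hg : Function.Injective g := by
    intro x y hxy
    have := hf hxy
    simpa using this
  have hKg : ∀ x y, K.Adj x y → G.Adj (g x) (g y) ∧ decide (part (g x) = part (g y)) = b :=
    fun x y hxy => hH (.inl x) (.inl y) hxy
  cases b
  · -- proper 4-colouring
    obtain ⟨x, y, hxy, hc⟩ := nc (fun x => part (g x))
    have := (hKg x y hxy).2
    simp only [decide_eq_false_iff_not] at this
    exact this hc
  · have hconst := conn (fun x => part (g x)) (by
      intro x y hxy
      have := (hKg x y hxy).2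
      simpa using this)
    have hav := avoid g hg (fun x y hxy => (hKg x y hxy).1)
    -- cases by the value
    have hval : ∀ x, part (g x) = part (g v0) := fun x => hconst x v0
    have two_ne : ∀ i : Fin 4, part (g v0) = i → i ≠ 2 := by
      rintro i hi rfl
      -- g injects into a two element set
      have hsub : ∀ x, g x = A v0 ∨ g x = B v0 := by
        intro x
        have h := (hval x).trans hi
        by_contra hcon
        simp only [part, if_neg hcon] at h
        split_ifs at h <;> exact absurd h (by decide)
      have hcard : (Finset.univ.image g).card ≤ ({A v0, B v0} : Finset (Fin m)).card := by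
        apply Finset.card_le_card
        intro y hy
        obtain ⟨x, -, rfl⟩ := Finset.mem_image.1 hy
        simpa using hsub x
      rw [Finset.card_image_of_injective _ hg] at hcard
      have := Finset.card_le_two (a := A v0) (b := B v0)
      simp only [Finset.card_univ, Fintype.card_fin] at hcard
      omega
    have range_case : ∀ (P : Fin a → Fin m), Function.Injective P →
        (∀ x, g x ∈ Set.range P ∧ g x ≠ P v0) → False := by
      intro P hP h
      have hcard : (Finset.univ.image g).card ≤ ((Finset.univ.image P).erase (P v0)).card := by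
        apply Finset.card_le_card
        intro y hy
        obtain ⟨x, -, rfl⟩ := Finset.mem_image.1 hy
        obtain ⟨⟨t, ht⟩, h2⟩ := h x
        rw [Finset.mem_erase]
        exact ⟨h2, Finset.mem_image.2 ⟨t, Finset.mem_univ _, ht⟩⟩
      rw [Finset.card_image_of_injective _ hg,
        Finset.card_erase_of_mem (Finset.mem_image.2 ⟨v0, Finset.mem_univ _, rfl⟩),
        Finset.card_image_of_injective _ hP] at hcard
      simp only [Finset.card_univ, Fintype.card_fin] at hcard
      omega
    have h4 : part (g v0) = 0 ∨ part (g v0) = 1 ∨ part (g v0) = 2 ∨ part (g v0) = 3 := by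
      generalize part (g v0) = i
      revert i
      decide
    rcases h4 with h4 | h4 | h4 | h4
    · apply range_case A hA
      intro x
      have h := (hval x).trans h4
      simp only [part] at h
      split_ifs at h with h1 h2 h3
      · exact absurd h (by decide)
      · exact ⟨h2, fun h' => h1 (Or.inl h')⟩
      · exact absurd h (by decide)
      · exact absurd h (by decide)
    · apply range_case B hB
      intro x
      have h := (hval x).trans h4
      simp only [part] at h
      split_ifs at h with h1 h2 h3
      · exact absurd h (by decide)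
      · exact absurd h (by decide)
      · exact ⟨h3, fun h' => h1 (Or.inr h')⟩
      · exact absurd h (by decide)
    · exact two_ne _ h4 rfl
    · obtain ⟨y, z, hyz, h1, h2⟩ := two v0
      have hout : ∀ x, g x ∉ Set.range A ∧ g x ∉ Set.range B := by
        intro x
        have h := (hval x).trans h4
        simp only [part] at h
        split_ifs at h with h1 h2 h3
        · exact absurd h (by decide)
        · exact absurd h (by decide)
        · exact absurd h (by decide)
        · exact ⟨h2, h3⟩
      apply hind (g v0) (g y) (hout _).1 (hout _).1 (hout _).2 (hout _).2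
      rw [hadj]
      refine ⟨(hKg _ _ h1).1, ?_⟩
      intro h
      have : v ∈ s(g v0, g y) := by rw [h]; simp
      rcases Sym2.mem_iff.1 this with h1 | h1
      · exact hav _ h1.symm
      · exact hav _ h1.symm

end Pool.Agent.H267R3
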