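import Pool.Agent.H267R3.Pattern

/-!
# Quadratic upper bound: the general form
-/

open SimpleGraph

namespace H267R3.StarEquiv

open H267R3.Pattern H267R3.Folk

/-- Every red/blue colouring of the edges of `G` (red graph `R`, blue graph `G \ R`) has a
monochromatic copy of `H`. -/
def Arrows {V W : Type} (G : SimpleGraph V) (H : SimpleGraph W) : Prop :=
  ∀ R : SimpleGraph V, R ≤ G → H.IsContained R ∨ H.IsContained (G \ R)

/-- The blow-up of `Γ` with cliques of size `q` inside each class. -/
def blow {X : Type} (Γ : SimpleGraph X) (q : ℕ) : SimpleGraph (X × Fin q) where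
  Adj p r := Γ.Adj p.1 r.1 ∨ (p.1 = r.1 ∧ p.2 ≠ r.2)
  symm := ⟨by
    rintro p r (h | ⟨h1, h2⟩)
    · exact Or.inl h.symm
    · exact Or.inr ⟨h1.symm, h2.symm⟩⟩
  loopless := ⟨by
    rintro p (h | ⟨h1, h2⟩)
    · exact h.ne rfl
    · exact h2 rfl⟩

/-- The cliques inside the classes. -/
def inside (X : Type) (q : ℕ) : SimpleGraph (X × Fin q) where
  Adj p r := p.1 = r.1 ∧ p.2 ≠ r.2
  symm := ⟨fun _ _ h => ⟨h.1.symm, h.2.symm⟩⟩
  loopless := ⟨fun _ h => h.2 rfl⟩

lemma contained_of_clique {V : Type} {G : SimpleGraph V} {m : ℕ} (v : Fin m → V)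
    (hv : ∀ a b, a < b → G.Adj (v a) (v b)) : (⊤ : SimpleGraph (Fin m)).IsContained G := by
  have hv' : ∀ a b, a ≠ b → G.Adj (v a) (v b) := by
    intro a b hab
    rcases lt_or_gt_of_ne hab with h | h
    · exact hv a b h
    · exact (hv b a h).symm
  refine ⟨⟨⟨v, fun {a b} h => hv' a b (by simpa using h)⟩, ?_⟩⟩
  intro a b hab
  by_contra hne
  exact (hv' a b hne).ne hab

/-- The blow-up of the Folkman graph arrows `K_{n+1}`. -/
theorem arrows_clique {n q : ℕ} (hn : 2 ≤ n) (hq : 2 * n ^ 2 < q) {X : Type}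
    (Γ : SimpleGraph X)
    (hΓ : ∀ χ : X → X → (Fin q → Fin q → Bool), ∃ (e : Fin n → X) (c : Fin q → Fin q → Bool),
        ∀ i j, i < j → Γ.Adj (e i) (e j) ∧ χ (e i) (e j) = c) :
    Arrows (blow Γ q) (⊤ : SimpleGraph (Fin (n + 1))) := by
  classical
  intro R hR
  by_contra hcon
  rw [not_or] at hcon
  obtain ⟨h1, h2⟩ := hcon
  have hRf : NoClique R (n + 1) := fun v hv => h1 (contained_of_clique v hv)
  have hBf : NoClique (blow Γ q \ R) (n + 1) := fun v hv => h2 (contained_of_clique v hv)
  obtain ⟨e, c, hc⟩ := hΓ (fun x y i j => decide (R.Adj (x, i) (y, j)))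
  have hred : ∀ s t, s < t → ∀ i j, c i j = true → R.Adj (e s, i) (e t, j) := by
    intro s t hst i j h
    have := congrFun (congrFun (hc s t hst).2 i) j
    rw [h] at this
    simpa using this
  have hblue : ∀ s t, s < t → ∀ i j, ¬ c i j = true → (blow Γ q \ R).Adj (e s, i) (e t, j) := by
    intro s t hst i j h
    have := congrFun (congrFun (hc s t hst).2 i) j
    rw [Bool.not_eq_true] at h
    rw [h] at this
    refine ⟨Or.inl (hc s t hst).1, ?_⟩
    simpa using this
  have hin : ∀ s i j, i ≠ j → R.Adj (e s, i) (e s, j) ∨ (blow Γ q \ R).Adj (e s, i) (e s, j) := by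
    intro s i j hij
    by_cases h : R.Adj (e s, i) (e s, j)
    · exact Or.inl h
    · exact Or.inr ⟨Or.inr ⟨rfl, hij⟩, h⟩
  have hcard : (Finset.univ.filter (fun i : Fin q => c i i = true)).card +
      (Finset.univ.filter (fun i : Fin q => ¬ c i i = true)).card = q := by
    rw [Finset.card_filter_add_card_filter_not]
    simp
  rcases Nat.lt_or_ge (n ^ 2) (Finset.univ.filter (fun i : Fin q => ¬ c i i = true)).card with
    h | h
  · exact core hn e R (blow Γ q \ R) (fun i j => c i j = true) hred hblue hin _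
      (fun i hi => (Finset.mem_filter.1 hi).2) hRf hBf h
  · refine core hn e (blow Γ q \ R) R (fun i j => ¬ c i j = true) hblue ?_
      (fun s i j hij => (hin s i j hij).symm) (Finset.univ.filter (fun i : Fin q => c i i = true))
      ?_ hBf hRf ?_
    · intro s t hst i j h
      exact hred s t hst i j (not_not.1 h)
    · intro i hi
      exact not_not.2 (Finset.mem_filter.1 hi).2
    · omega

/-- The canonical colouring has no monochromatic `K_{n+1} + H` with `H` connected and large. -/
theorem not_arrows {n q : ℕ} {X : Type} (Γ : SimpleGraph X) (hΓ : Γ.CliqueFree (n + 1))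
    {W : Type} [Fintype W] (H : SimpleGraph W) (hH : H.Connected) (hW : q < Fintype.card W) :
    ¬ Arrows (blow Γ q) ((⊤ : SimpleGraph (Fin (n + 1))) ⊕g H) := by
  classical
  intro hA
  rcases hA (inside X q) (fun p r h => Or.inr h) with ⟨⟨f, hf⟩⟩ | ⟨⟨f, hf⟩⟩
  · -- red copy of `H`
    have hadj : ∀ w w', H.Adj w w' → (f (Sum.inr w)).1 = (f (Sum.inr w')).1 := by
      intro w w' h
      have : ((⊤ : SimpleGraph (Fin (n + 1))) ⊕g H).Adj (Sum.inr w) (Sum.inr w') :=
        SimpleGraph.sum_adj_inr.2 h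
      exact (f.map_rel this).1
    have hreach : ∀ w w', H.Reachable w w' → (f (Sum.inr w)).1 = (f (Sum.inr w')).1 := by
      intro w w' h
      obtain ⟨p⟩ := h
      induction p with
      | nil => rfl
      | cons h _ ih => exact (hadj _ _ h).trans ih
    have hinj : Function.Injective (fun w : W => (f (Sum.inr w)).2) := by
      intro w w' h
      have h1 := hreach w w' (hH.preconnected w w')
      have h2 : f (Sum.inr w) = f (Sum.inr w') := Prod.ext h1 h
      exact Sum.inr_injective (hf h2)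
    have := Fintype.card_le_of_injective _ hinj
    rw [Fintype.card_fin] at this
    omega
  · -- blue clique
    have hadj : ∀ a b : Fin (n + 1), a ≠ b → Γ.Adj (f (Sum.inl a)).1 (f (Sum.inl b)).1 := by
      intro a b hab
      have : ((⊤ : SimpleGraph (Fin (n + 1))) ⊕g H).Adj (Sum.inl a) (Sum.inl b) :=
        SimpleGraph.sum_adj_inl.2 hab
      obtain ⟨h1, h2⟩ := f.map_rel this
      rcases h1 with h1 | h1
      · exact h1
      · exact absurd h1 h2
    have hnc := SimpleGraph.cliqueFree_iff.1 hΓ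
    apply hnc.false
    refine ⟨⟨fun a => (f (Sum.inl a)).1, fun {a b} h => hadj a b h⟩, ?_⟩
    intro a b hab
    by_contra hne
    exact (hadj a b hne).ne hab

/-- **Main theorem.** For `n ≥ 2` and every connected `H` with more than `2 n² + 1` vertices there
is a finite graph that arrows `K_{n+1}` but not `K_{n+1} + H`. -/
theorem main (n : ℕ) (hn : 2 ≤ n) :
    ∃ (V : Type) (_ : Finite V) (G : SimpleGraph V),
      Arrows G (⊤ : SimpleGraph (Fin (n + 1))) ∧
      ∀ (W : Type) [Fintype W] (H : SimpleGraph W), H.Connected →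
        2 * n ^ 2 + 1 < Fintype.card W →
        ¬ Arrows G ((⊤ : SimpleGraph (Fin (n + 1))) ⊕g H) := by
  obtain ⟨X, hX, Γ, hΓ, h⟩ := folkman n hn (Fin (2 * n ^ 2 + 1) → Fin (2 * n ^ 2 + 1) → Bool)
  refine ⟨X × Fin (2 * n ^ 2 + 1), inferInstance, blow Γ (2 * n ^ 2 + 1),
    arrows_clique hn (Nat.lt_succ_self _) Γ h, ?_⟩
  intro W _ H hH hW
  exact not_arrows Γ hΓ H hH hW

end H267R3.StarEquiv
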